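import Pool.Agent.Helper418_AC.Defs

set_option autoImplicit false

namespace Helper418AC

open MeasureTheory Set
open scoped Pointwise ENNReal

namespace AC1

open Filter Topology

theorem filter_le {Γ : Type} [DecidableEq Γ] (A A' : Finset Γ) (P : Γ → Prop) [DecidablePred P] :
    (A.filter P).card ≤ (A'.filter P).card + (symmDiff A' A).card := by
  have hsub : A.filter P ⊆ A'.filter P ∪ symmDiff A' A := by
    intro x hx
    rw [Finset.mem_filter] at hx
    rw [Finset.mem_union, Finset.mem_filter, Finset.mem_symmDiff]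
    by_cases h : x ∈ A'
    · left; exact ⟨h, hx.2⟩
    · right; right; exact ⟨hx.1, h⟩
  exact (Finset.card_le_card hsub).trans (Finset.card_union_le _ _)

theorem filter_le' {Γ : Type} [DecidableEq Γ] (A A' : Finset Γ) (P : Γ → Prop) [DecidablePred P] :
    (A'.filter P).card ≤ (A.filter P).card + (symmDiff A' A).card := by
  have h := filter_le A' A P
  rwa [symmDiff_comm] at h

theorem abs_le (Γ : Type) [DecidableEq Γ] (A A' : Finset Γ) (P : Γ → Prop) [DecidablePred P] :
    |((A'.filter P).card : ℝ) - ((A.filter P).card : ℝ)| ≤ ((symmDiff A' A).card : ℝ) := by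
  have h1 : ((A.filter P).card : ℝ) ≤ (A'.filter P).card + (symmDiff A' A).card := by
    exact_mod_cast filter_le A A' P
  have h2 : ((A'.filter P).card : ℝ) ≤ (A.filter P).card + (symmDiff A' A).card := by
    exact_mod_cast filter_le' A A' P
  rw [_root_.abs_le]
  constructor <;> linarith

end AC1

open Filter Topology in
/-- TARGET -/
theorem iso_gap (Γ : Type) [Group Γ] [Countable Γ] [DecidableEq Γ] (h : ¬ Amenable Γ) :
    ∃ (S : Finset Γ) (c : ℝ), 0 < c ∧ ∀ A : Finset Γ,
      c * A.card ≤ ∑ s ∈ S, ((symmDiff (A.image (fun a => s * a)) A).card : ℝ) := by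
  classical
  by_contra H
  push Not at H
  apply h
  -- the choice of the finite sets
  have H' : ∀ i : Finset Γ × ℕ, ∃ A : Finset Γ,
      ∑ s ∈ i.1, ((symmDiff (A.image (fun a => s * a)) A).card : ℝ)
        < 1 / ((i.2 : ℝ) + 1) * A.card := fun i => H i.1 (1 / ((i.2 : ℝ) + 1)) (by positivity)
  choose A hA using H'
  have hpos : ∀ i, (0 : ℝ) < (A i).card := by
    intro i
    have h1 := hA i
    have h2 : (0 : ℝ) ≤ ∑ s ∈ i.1, ((symmDiff ((A i).image (fun a => s * a)) (A i)).card : ℝ) :=
      Finset.sum_nonneg (fun _ _ => Nat.cast_nonneg _)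
    have h3 : (0 : ℝ) < 1 / ((i.2 : ℝ) + 1) * (A i).card := lt_of_le_of_lt h2 h1
    have h4 : (0 : ℝ) < 1 / ((i.2 : ℝ) + 1) := by positivity
    exact (mul_pos_iff_of_pos_left h4).1 h3
  let U : Ultrafilter (Finset Γ × ℕ) := Ultrafilter.of atTop
  have hU : (U : Filter (Finset Γ × ℕ)) ≤ atTop := Ultrafilter.of_le _
  let f : Set Γ → Finset Γ × ℕ → ℝ := fun B i =>
    (((A i).filter (fun x => x ∈ B)).card : ℝ) / (A i).card
  have hf0 : ∀ B i, 0 ≤ f B i := fun B i => by positivity
  have hf1 : ∀ B i, f B i ≤ 1 := by
    intro B i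
    have : (((A i).filter (fun x => x ∈ B)).card : ℝ) ≤ (A i).card := by
      exact_mod_cast Finset.card_filter_le _ _
    exact (div_le_one (hpos i)).2 this
  have hex : ∀ B, ∃ x : ℝ, Tendsto (f B) U (𝓝 x) := by
    intro B
    have hmem : (Icc (0 : ℝ) 1) ∈ (U.map (f B) : Filter ℝ) := by
      rw [Ultrafilter.coe_map, Filter.mem_map]
      exact Filter.univ_mem' (fun i => ⟨hf0 B i, hf1 B i⟩)
    obtain ⟨x, -, hx⟩ := isCompact_Icc.ultrafilter_le_nhds (U.map (f B))
      (Filter.le_principal_iff.2 hmem)
    exact ⟨x, hx⟩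
  choose m hm using hex
  refine ⟨m, ?_, ?_, ?_, ?_⟩
  · refine tendsto_nhds_unique (hm Set.univ) ?_
    have : f Set.univ = fun _ => 1 := by
      funext i
      simp only [f, Set.mem_univ, Finset.filter_true]
      exact div_self (hpos i).ne'
    rw [this]
    exact tendsto_const_nhds
  · intro B
    exact ge_of_tendsto' (hm B) (fun i => hf0 B i)
  · intro B C hBC
    refine tendsto_nhds_unique (hm (B ∪ C)) ?_
    have : f (B ∪ C) = fun i => f B i + f C i := by
      funext i
      simp only [f]
      rw [← add_div]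
      congr 1
      have h1 : (A i).filter (fun x => x ∈ B ∪ C)
          = (A i).filter (fun x => x ∈ B) ∪ (A i).filter (fun x => x ∈ C) := by
        ext x
        simp only [Finset.mem_filter, Finset.mem_union, Set.mem_union]
        tauto
      have h2 : ((A i).filter (fun x => x ∈ B ∪ C)).card
          = ((A i).filter (fun x => x ∈ B)).card + ((A i).filter (fun x => x ∈ C)).card := by
        rw [h1]
        apply Finset.card_union_of_disjoint
        rw [Finset.disjoint_left]
        intro x hx hx'
        rw [Finset.mem_filter] at hx hx'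
        exact (Set.disjoint_left.1 hBC) hx.2 hx'.2
      have h3 : (((A i).filter (fun x => x ∈ B ∪ C)).card : ℝ)
          = ((A i).filter (fun x => x ∈ B)).card + ((A i).filter (fun x => x ∈ C)).card := by
        exact_mod_cast h2
      convert h3
    rw [this]
    exact (hm B).add (hm C)
  · intro g B
    have hdiff : Tendsto (fun i => f (g • B) i - f B i) U (𝓝 0) := by
      have hb : Tendsto (fun i : Finset Γ × ℕ => 1 / ((i.2 : ℝ) + 1)) U (𝓝 0) := by
        have h1 : Tendsto (fun n : ℕ => 1 / ((n : ℝ) + 1)) atTop (𝓝 0) :=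
          tendsto_one_div_add_atTop_nhds_zero_nat
        have h2 : Tendsto (fun i : Finset Γ × ℕ => i.2) atTop atTop := by
          rw [← prod_atTop_atTop_eq]
          exact tendsto_snd
        exact (h1.comp h2).mono_left hU
      refine squeeze_zero_norm' ?_ hb
      have hev : ∀ᶠ i in (U : Filter (Finset Γ × ℕ)), ({g⁻¹}, 0) ≤ i :=
        hU (eventually_ge_atTop _)
      filter_upwards [hev] with i hi
      have hg : g⁻¹ ∈ i.1 := by
        have := hi.1
        exact this (Finset.mem_singleton_self _)
      have hcard : ((A i).filter (fun x => x ∈ g • B)).card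
          = (((A i).image (fun a => g⁻¹ * a)).filter (fun x => x ∈ B)).card := by
        rw [Finset.filter_image, Finset.card_image_of_injective _ (mul_right_injective g⁻¹)]
        congr 1
        apply Finset.filter_congr
        intro x _
        rw [Set.mem_smul_set_iff_inv_smul_mem, smul_eq_mul]
      have hle : ((symmDiff ((A i).image (fun a => g⁻¹ * a)) (A i)).card : ℝ)
          ≤ 1 / ((i.2 : ℝ) + 1) * (A i).card := by
        refine le_trans ?_ (hA i).le
        exact Finset.single_le_sum (f := fun s =>
          ((symmDiff ((A i).image (fun a => s * a)) (A i)).card : ℝ))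
          (fun _ _ => Nat.cast_nonneg _) hg
      simp only [f, hcard]
      rw [← sub_div, Real.norm_eq_abs, abs_div, abs_of_pos (hpos i), div_le_iff₀ (hpos i)]
      exact (AC1.abs_le Γ (A i) ((A i).image (fun a => g⁻¹ * a)) (fun x => x ∈ B)).trans hle
    have h1 : Tendsto (fun i => f (g • B) i - f B i) U (𝓝 (m (g • B) - m B)) :=
      (hm (g • B)).sub (hm B)
    have h2 := tendsto_nhds_unique h1 hdiff
    linarith

end Helper418AC
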