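import Pool.Agent.Helper418_AC.Defs

set_option autoImplicit false

namespace Helper418AC

open MeasureTheory Set
open scoped Pointwise ENNReal

namespace AC6

lemma coin_singleton (b : Bool) : coin {b} = 2⁻¹ := by
  cases b <;> simp [coin]

lemma measurable_shift {Γ : Type} [Group Γ] (g : Γ) : Measurable (shift g : (Γ → Bool) → (Γ → Bool)) :=
  measurable_pi_iff.2 fun h => measurable_pi_apply (g⁻¹ * h)

/-- the measure of a cylinder fixing the coordinates in `S` -/
lemma bern_cyl {Γ : Type} (S : Finset Γ) (τ : Γ → Bool) :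
    bern Γ ((S : Set Γ).pi fun h => {τ h}) = (2⁻¹ : ℝ≥0∞) ^ S.card := by
  unfold bern
  rw [Measure.infinitePi_pi _ (fun i _ => measurableSet_singleton _)]
  simp [coin_singleton]

lemma exists_finset {Γ : Type} [Group Γ] [Infinite Γ] {g : Γ} (hg : g ≠ 1) (n : ℕ) :
    ∃ S : Finset Γ, S.card = n ∧ ∀ h ∈ S, ∀ k ∈ S, h ≠ g⁻¹ * k := by
  classical
  induction n with
  | zero => exact ⟨∅, rfl, by simp⟩
  | succ n ih =>
    obtain ⟨S, hS, hd⟩ := ih
    obtain ⟨h, hh⟩ := Infinite.exists_notMem_finset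
      (S ∪ S.image (fun k => g⁻¹ * k) ∪ S.image (fun k => g * k))
    simp only [Finset.mem_union, Finset.mem_image, not_or, not_exists, not_and] at hh
    obtain ⟨⟨h1, h2⟩, h3⟩ := hh
    refine ⟨insert h S, by rw [Finset.card_insert_of_notMem h1, hS], ?_⟩
    intro a ha b hb
    rw [Finset.mem_insert] at ha hb
    intro he
    rcases ha with ha' | ha' <;> rcases hb with hb' | hb'
    · apply hg
      have h5 : g⁻¹ * h = h := by rw [ha', hb'] at he; exact he.symm
      have h6 : g⁻¹ = 1 := by simpa using h5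
      simpa using h6
    · exact h2 b hb' (by rw [← he, ha'])
    · exact h3 a ha' (by rw [he, hb']; simp)
    · exact hd a ha' b hb' he

lemma fixed_le {Γ : Type} [Group Γ] [Infinite Γ] {g : Γ} (hg : g ≠ 1) (n : ℕ) :
    bern Γ {y | shift g y = y} ≤ (2⁻¹ : ℝ≥0∞) ^ n := by
  classical
  obtain ⟨S, hS, hd⟩ := exists_finset hg n
  set S' := S ∪ S.image (fun k => g⁻¹ * k) with hS'
  have hcard : S'.card = n + n := by
    rw [hS', Finset.card_union_of_disjoint, Finset.card_image_of_injective _ (mul_right_injective g⁻¹), hS]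
    rw [Finset.disjoint_left]
    intro a ha hb
    obtain ⟨k, hk, rfl⟩ := Finset.mem_image.1 hb
    exact hd _ ha k hk rfl
  have hsub : {y : Γ → Bool | shift g y = y} ⊆
      ⋃ T ∈ S.powerset, ((S' : Set Γ).pi fun h => {decide (h ∈ T ∨ g * h ∈ T)}) := by
    intro y hy
    have hy' : ∀ h, y (g⁻¹ * h) = y h := fun h => congrFun (show shift g y = y from hy) h
    rw [mem_iUnion₂]
    refine ⟨S.filter (fun h => y h = true), by simp, ?_⟩
    intro h hh
    have hy2 : y (g * h) = y h := by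
      have := hy' (g * h)
      rw [inv_mul_cancel_left] at this
      exact this.symm
    rw [mem_singleton_iff]
    rcases Finset.mem_union.1 (Finset.mem_coe.1 hh) with h1 | h1
    · cases hb : y h <;> simp [hb, h1, hy2]
    · obtain ⟨k, hk, rfl⟩ := Finset.mem_image.1 h1
      have hyk := hy' k
      cases hb : y k <;> simp [hb, hk, hyk]
  calc bern Γ {y | shift g y = y}
      ≤ bern Γ (⋃ T ∈ S.powerset, ((S' : Set Γ).pi fun h => {decide (h ∈ T ∨ g * h ∈ T)})) :=
        measure_mono hsub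
    _ ≤ ∑ T ∈ S.powerset, bern Γ ((S' : Set Γ).pi fun h => {decide (h ∈ T ∨ g * h ∈ T)}) :=
        measure_biUnion_finset_le _ _
    _ = ∑ T ∈ S.powerset, (2⁻¹ : ℝ≥0∞) ^ (n + n) := by
        refine Finset.sum_congr rfl fun T _ => ?_
        rw [bern_cyl S' (fun h => decide (h ∈ T ∨ g * h ∈ T)), hcard]
    _ = (2⁻¹ : ℝ≥0∞) ^ n := by
        rw [Finset.sum_const, Finset.card_powerset, hS, nsmul_eq_mul, pow_add, ← mul_assoc]
        have : ((2 ^ n : ℕ) : ℝ≥0∞) * (2⁻¹ : ℝ≥0∞) ^ n = 1 := by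
          push_cast
          rw [← mul_pow, ENNReal.mul_inv_cancel (by norm_num) (by norm_num), one_pow]
        rw [this, one_mul]

lemma eq_zero_of_le_pow {a : ℝ≥0∞} (h : ∀ n : ℕ, a ≤ (2⁻¹ : ℝ≥0∞) ^ n) : a = 0 := by
  have h2 : (2⁻¹ : ℝ≥0∞) < 1 := by
    rw [ENNReal.inv_lt_one]; norm_num
  have := ENNReal.tendsto_pow_atTop_nhds_zero_of_lt_one h2
  exact le_antisymm (ge_of_tendsto' this h) bot_le

end AC6

/-! TARGETS -/
theorem shift_mp {Γ : Type} [Group Γ] (g : Γ) :
    MeasurePreserving (shift g) (bern Γ) (bern Γ) := by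
  classical
  refine ⟨AC6.measurable_shift g, ?_⟩
  refine Measure.eq_infinitePi (μ := fun _ : Γ => coin) ?_
  intro s t ht
  rw [Measure.map_apply (AC6.measurable_shift g)
    (MeasurableSet.pi s.countable_toSet fun i _ => ht i)]
  have : (shift g) ⁻¹' ((s : Set Γ).pi t) =
      ((s.image fun k => g⁻¹ * k : Finset Γ) : Set Γ).pi fun h => t (g * h) := by
    ext y
    simp only [mem_preimage, Set.mem_pi, Finset.coe_image, Set.mem_image, Finset.mem_coe, shift]
    constructor
    · rintro hy _ ⟨k, hk, rfl⟩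
      rw [mul_inv_cancel_left]
      exact hy k hk
    · intro hy k hk
      have := hy _ ⟨k, hk, rfl⟩
      rwa [mul_inv_cancel_left] at this
  rw [this]
  unfold bern
  rw [Measure.infinitePi_pi _ (fun i _ => ht _),
    Finset.prod_image (fun a _ b _ h => mul_right_injective g⁻¹ h)]
  refine Finset.prod_congr rfl fun i _ => ?_
  rw [mul_inv_cancel_left]

theorem infinite_of_not_amenable {Γ : Type} [Group Γ] (h : ¬ Amenable Γ) : Infinite Γ := by
  by_contra hfin
  rw [not_infinite_iff_finite] at hfin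
  apply h
  have hpos : (0 : ℝ) < Nat.card Γ := by exact_mod_cast Nat.card_pos
  refine ⟨fun A => (A.ncard : ℝ) / Nat.card Γ, ?_, ?_, ?_, ?_⟩
  · simp only [Set.ncard_univ]
    exact div_self hpos.ne'
  · intro A; positivity
  · intro A B hAB
    show ((A ∪ B).ncard : ℝ) / Nat.card Γ = (A.ncard : ℝ) / Nat.card Γ + (B.ncard : ℝ) / Nat.card Γ
    rw [Set.ncard_union_eq hAB (Set.toFinite _) (Set.toFinite _)]
    push_cast
    rw [add_div]
  · intro g A
    show ((g • A).ncard : ℝ) / Nat.card Γ = (A.ncard : ℝ) / Nat.card Γ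
    rw [← Set.image_smul, Set.ncard_image_of_injective _ (MulAction.injective g)]

theorem shift_free {Γ : Type} [Group Γ] [Infinite Γ] {g : Γ} (hg : g ≠ 1) :
    ∀ᵐ y ∂(bern Γ), shift g y ≠ y := by
  rw [ae_iff]
  have : {a : Γ → Bool | ¬ shift g a ≠ a} = {y | shift g y = y} := by
    ext y; simp
  rw [this]
  exact AC6.eq_zero_of_le_pow (AC6.fixed_le hg)

theorem bern_null {Γ : Type} [Group Γ] [Infinite Γ] : NullSingletonClass (bern Γ) := by
  refine ⟨fun y0 => ?_⟩
  refine AC6.eq_zero_of_le_pow fun n => ?_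
  obtain ⟨S, hS⟩ := Infinite.exists_subset_card_eq Γ n
  refine (measure_mono ?_).trans (AC6.bern_cyl S y0).le |>.trans (by rw [hS])
  rintro y rfl
  intro i _
  rfl

end Helper418AC
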