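import Mathlib

/-!
# Weak containment of probability measure preserving actions: definitions

`PmpAction Γ X μ` : a measure preserving action of `Γ` on `(X, μ)`.
`WeaklyContained b a` : `b ≼ a` in the sense of Kechris.
`width Γ X μ` : the supremum of the cardinalities of the antichains of free actions.
-/

set_option autoImplicit false

namespace Helper418AC

open MeasureTheory Set
open scoped Pointwise ENNReal

/-- A group is amenable if it carries a finitely additive left invariant probability mean
on all its subsets. -/
def Amenable (Γ : Type) [Group Γ] : Prop :=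
  ∃ m : Set Γ → ℝ, m Set.univ = 1 ∧ (∀ A, 0 ≤ m A) ∧
    (∀ A B, Disjoint A B → m (A ∪ B) = m A + m B) ∧ ∀ (g : Γ) (A : Set Γ), m (g • A) = m A

/-- A probability measure preserving action of the group `Γ` on `(X, μ)`. -/
structure PmpAction (Γ : Type) [Group Γ] (X : Type) [MeasurableSpace X] (μ : Measure X) where
  /-- the action map -/
  act : Γ → X → X
  one_act : ∀ x, act 1 x = x
  mul_act : ∀ g h x, act (g * h) x = act g (act h x)
  mp : ∀ g, MeasurePreserving (act g) μ μ

variable {Γ : Type} [Group Γ] {X : Type} [MeasurableSpace X] {μ : Measure X}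

/-- The action is (essentially) free: for `g ≠ 1` almost no point is fixed by `g`. -/
def PmpAction.IsFree (a : PmpAction Γ X μ) : Prop :=
  ∀ g : Γ, g ≠ 1 → ∀ᵐ x ∂μ, a.act g x ≠ x

/-- Measure weak containment `b ≼ a`. -/
def WeaklyContained (b a : PmpAction Γ X μ) : Prop :=
  ∀ (F : Finset Γ) (ε : ℝ), 0 < ε → ∀ (n : ℕ) (A : Fin n → Set X), (∀ i, MeasurableSet (A i)) →
    ∃ B : Fin n → Set X, (∀ i, MeasurableSet (B i)) ∧ ∀ g ∈ F, ∀ i j,
      |μ.real (b.act g '' A i ∩ A j) - μ.real (a.act g '' B i ∩ B j)| < ε

/-- An antichain of free actions: any two distinct members are incomparable for `≼`. -/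
def IsAntichainFree (S : Set (PmpAction Γ X μ)) : Prop :=
  (∀ a ∈ S, a.IsFree) ∧
    ∀ a ∈ S, ∀ b ∈ S, a ≠ b → ¬ WeaklyContained a b ∧ ¬ WeaklyContained b a

variable (Γ X μ) in
/-- The width of the class of free actions on `(X, μ)`: the supremum of the cardinalities of
antichains. -/
noncomputable def width : Cardinal :=
  sSup {κ : Cardinal | ∃ S : Set (PmpAction Γ X μ), IsAntichainFree S ∧ κ = Cardinal.mk S}

/-! ### The Bernoulli shift -/

/-- the fair coin -/
noncomputable def coin : Measure Bool := (2⁻¹ : ℝ≥0∞) • (Measure.dirac true + Measure.dirac false)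

instance : IsProbabilityMeasure coin := by
  refine ⟨?_⟩
  simp only [coin, Measure.smul_apply, Measure.add_apply, measure_univ, smul_eq_mul]
  rw [one_add_one_eq_two]
  exact ENNReal.inv_mul_cancel (by norm_num) (by norm_num)

variable (Γ) in
/-- the Bernoulli measure on `Bool ^ Γ` -/
noncomputable def bern : Measure (Γ → Bool) := Measure.infinitePi (fun _ : Γ => coin)

instance : IsProbabilityMeasure (bern Γ) := by unfold bern; infer_instance

/-- the shift -/
def shift (g : Γ) (y : Γ → Bool) : Γ → Bool := fun h => y (g⁻¹ * h)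

end Helper418AC
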