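import Mathlib
import Pool.Agent.Helper418_AC.Defs
import Pool.Agent.R496.SE.Iso

set_option autoImplicit false

namespace Helper418AC

open MeasureTheory Set
open scoped Pointwise ENNReal

namespace AC7

/-- An uncountable Borel null subset of `(0,1)`. -/
theorem exists_null_uncountable :
    ∃ K : Set ℝ, MeasurableSet K ∧ K ⊆ Ioo 0 1 ∧ volume K = 0 ∧ ¬ K.Countable := by
  refine ⟨{x : ℝ | Liouville x} ∩ Ioo 0 1, ?_, inter_subset_right, ?_, ?_⟩
  · exact IsGδ.setOfPred_liouville.measurableSet.inter measurableSet_Ioo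
  · exact measure_mono_null inter_subset_left volume_setOfPred_liouville
  · intro hc
    have h1 : ({x : ℝ | Liouville x} ∩ Ioo (0 : ℝ) 1)ᶜ ∈ residual ℝ := by
      have h2 : ({x : ℝ | Liouville x} ∩ Ioo (0 : ℝ) 1)ᶜ
          = ⋂ y ∈ ({x : ℝ | Liouville x} ∩ Ioo (0 : ℝ) 1), {y}ᶜ := by
        ext z
        simp only [mem_compl_iff, mem_iInter, mem_singleton_iff]
        constructor
        · intro h y hy hzy
          exact h (hzy ▸ hy)
        · intro h hz
          exact h z hz rfl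
      rw [h2]
      refine (countable_bInter_mem hc).2 fun y _ => ?_
      exact residual_of_dense_open isOpen_compl_singleton (dense_compl_singleton y)
    have h3 : {x : ℝ | Liouville x} ∩ ({x : ℝ | Liouville x} ∩ Ioo (0 : ℝ) 1)ᶜ ∈ residual ℝ :=
      Filter.inter_mem eventually_residual_liouville h1
    have h4 := (dense_of_mem_residual h3).inter_open_nonempty (Ioo (0 : ℝ) 1) isOpen_Ioo
      ⟨1 / 2, by norm_num, by norm_num⟩
    obtain ⟨z, hz1, hz2, hz3⟩ := h4
    exact hz3 ⟨hz2, hz1⟩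

theorem iso_real {X : Type} [MeasurableSpace X] [StandardBorelSpace X] (ν : Measure X)
    [IsProbabilityMeasure ν] [NullSingletonClass ν] :
    ∃ e : X ≃ᵐ ℝ, MeasurePreserving e ν (volume.restrict (Ioo (0 : ℝ) 1)) := by
  classical
  obtain ⟨S, T, hS, hT, hm, hi⟩ := R496.SE.iso_interval ν
  obtain ⟨K, hK, hK1, hK0, hKu⟩ := exists_null_uncountable
  set X2 : Set X := {x | T x ∈ Ioo (0 : ℝ) 1 ∧ S (T x) = x ∧ T x ∉ K} with hX2
  set I2 : Set ℝ := Ioo 0 1 \ K with hI2
  have hX2m : MeasurableSet X2 := by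
    have e1 : X2 = (T ⁻¹' Ioo (0 : ℝ) 1) ∩ ({x | S (T x) = x} ∩ (T ⁻¹' K)ᶜ) := by
      ext x; simp [hX2]
    rw [e1]
    refine (hT measurableSet_Ioo).inter ((measurableSet_eq_fun (hS.comp hT) measurable_id).inter ?_)
    exact (hT hK).compl
  have hI2m : MeasurableSet I2 := measurableSet_Ioo.diff hK
  have hmemI : ∀ x : X2, T x ∈ I2 := fun x => ⟨x.2.1, x.2.2.2⟩
  have hmemX : ∀ t : I2, S t ∈ X2 := by
    intro t
    have h1 := hi t t.2.1
    refine ⟨?_, ?_, ?_⟩
    · rw [h1]; exact t.2.1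
    · rw [h1]
    · rw [h1]; exact t.2.2
  let e1 : X2 ≃ᵐ I2 :=
    { toFun := fun x => ⟨T x, hmemI x⟩
      invFun := fun t => ⟨S t, hmemX t⟩
      left_inv := fun x => Subtype.ext x.2.2.1
      right_inv := fun t => Subtype.ext (hi t t.2.1)
      measurable_toFun := (hT.comp measurable_subtype_coe).subtype_mk
      measurable_invFun := (hS.comp measurable_subtype_coe).subtype_mk }
  have : StandardBorelSpace (X2ᶜ : Set X) := hX2m.compl.standardBorel
  have : StandardBorelSpace (I2ᶜ : Set ℝ) := hI2m.compl.standardBorel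
  have hsub1 : S '' K ⊆ X2ᶜ := by
    rintro _ ⟨t, ht, rfl⟩ hx
    apply hx.2.2
    rw [hi t (hK1 ht)]
    exact ht
  have hunc1 : ¬ Countable (X2ᶜ : Set X) := by
    intro h
    have h1 : (X2ᶜ : Set X).Countable := h
    have h2 : (S '' K).Countable := h1.mono hsub1
    apply hKu
    have hinj : InjOn S K := by
      intro a ha b hb hab
      rw [← hi a (hK1 ha), ← hi b (hK1 hb), hab]
    exact (countable_of_injective_of_countable_image hinj h2)
  have hunc2 : ¬ Countable (I2ᶜ : Set ℝ) := by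
    intro h
    have h1 : (I2ᶜ : Set ℝ).Countable := h
    have h2 : K ⊆ (I2ᶜ : Set ℝ) := by
      intro t ht h3
      exact h3.2 ht
    exact hKu (h1.mono h2)
  let e2 : (X2ᶜ : Set X) ≃ᵐ (I2ᶜ : Set ℝ) :=
    PolishSpace.measurableEquivOfNotCountable hunc1 hunc2
  let e : X ≃ᵐ ℝ := (MeasurableEquiv.sumCompl hX2m).symm.trans
    ((MeasurableEquiv.sumCongr e1 e2).trans (MeasurableEquiv.sumCompl hI2m))
  have he : ∀ x ∈ X2, e x = T x := by
    intro x hx
    have h1 : (MeasurableEquiv.sumCompl hX2m).symm x = Sum.inl ⟨x, hx⟩ := by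
      rw [MeasurableEquiv.symm_apply_eq]
      rfl
    simp only [e, MeasurableEquiv.trans_apply]
    rw [h1]
    rfl
  have hnull : ν X2ᶜ = 0 := by
    rw [← hm, Measure.map_apply hS hX2m.compl, Measure.restrict_apply (hS hX2m.compl)]
    refine measure_mono_null ?_ hK0
    rintro t ⟨ht1, ht2⟩
    by_contra htK
    exact ht1 (hmemX ⟨t, ht2, htK⟩)
  have hae : (e : X → ℝ) =ᵐ[ν] T := by
    filter_upwards [compl_mem_ae_iff.2 hnull] with x hx
    rw [compl_compl] at hx
    exact he x hx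
  have hTm : Measure.map T ν = volume.restrict (Ioo (0 : ℝ) 1) := by
    rw [← hm, Measure.map_map hT hS]
    have : T ∘ S =ᵐ[volume.restrict (Ioo (0 : ℝ) 1)] id := by
      filter_upwards [ae_restrict_mem measurableSet_Ioo] with t ht
      exact hi t ht
    rw [Measure.map_congr this, Measure.map_id]
  refine ⟨e, e.measurable, ?_⟩
  rw [Measure.map_congr hae, hTm]

end AC7

/-- TARGET -/
theorem exists_measure_iso {Z X : Type} [MeasurableSpace Z] [StandardBorelSpace Z] (ζ : Measure Z)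
    [IsProbabilityMeasure ζ] [NullSingletonClass ζ] [MeasurableSpace X] [StandardBorelSpace X]
    (μ : Measure X) [IsProbabilityMeasure μ] [NullSingletonClass μ] :
    ∃ e : Z ≃ᵐ X, MeasurePreserving e ζ μ := by
  obtain ⟨e1, h1⟩ := AC7.iso_real ζ
  obtain ⟨e2, h2⟩ := AC7.iso_real μ
  exact ⟨e1.trans e2.symm, (h2.symm e2).comp h1⟩

end Helper418AC
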