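import Pool.Agent.Helper418_AC.Defs

set_option autoImplicit false

namespace Helper418AC

open MeasureTheory Set
open scoped Pointwise ENNReal

namespace AC8

/-- the type of the codes -/
abbrev Cd (Γ : Type) : Type :=
  Σ F : Finset Γ, Σ n : ℕ, (Fin n → Fin n → {g // g ∈ F} → ℚ) × ℕ

/-- the code of an action -/
def code {Γ : Type} [Group Γ] {X : Type} [MeasurableSpace X] {μ : Measure X}
    (a : PmpAction Γ X μ) : Set (Cd Γ) :=
  {c | ∃ A : Fin c.2.1 → Set X, (∀ i, MeasurableSet (A i)) ∧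
    ∀ (g : {g // g ∈ c.1}) (i j : Fin c.2.1),
      |μ.real (a.act g.1 '' A i ∩ A j) - (c.2.2.1 i j g : ℝ)| < 1 / ((c.2.2.2 : ℝ) + 1)}

theorem wc_of_code {Γ : Type} [Group Γ] {X : Type} [MeasurableSpace X] {μ : Measure X}
    (a b : PmpAction Γ X μ) (h : code b ⊆ code a) : WeaklyContained b a := by
  intro F ε hε n A hA
  obtain ⟨k, hk⟩ := exists_nat_one_div_lt (half_pos hε)
  have hk0 : (0 : ℝ) < 1 / ((k : ℝ) + 1) := Nat.one_div_pos_of_nat
  have hq : ∀ (i j : Fin n) (g : {g // g ∈ F}), ∃ q : ℚ,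
      |μ.real (b.act g.1 '' A i ∩ A j) - (q : ℝ)| < 1 / ((k : ℝ) + 1) :=
    fun i j g => exists_rat_near _ hk0
  choose q hq using hq
  have hmem : (⟨F, n, q, k⟩ : Cd Γ) ∈ code b := ⟨A, hA, fun g i j => hq i j g⟩
  obtain ⟨B, hB, hB2⟩ := h hmem
  refine ⟨B, hB, fun g hg i j => ?_⟩
  have h1 := hq i j ⟨g, hg⟩
  have h2 := hB2 ⟨g, hg⟩ i j
  simp only at h1 h2
  have h3 : μ.real (b.act g '' A i ∩ A j) - μ.real (a.act g '' B i ∩ B j)
      = (μ.real (b.act g '' A i ∩ A j) - (q i j ⟨g, hg⟩ : ℝ))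
        - (μ.real (a.act g '' B i ∩ B j) - (q i j ⟨g, hg⟩ : ℝ)) := by ring
  rw [h3]
  calc _ ≤ |μ.real (b.act g '' A i ∩ A j) - (q i j ⟨g, hg⟩ : ℝ)|
        + |μ.real (a.act g '' B i ∩ B j) - (q i j ⟨g, hg⟩ : ℝ)| := abs_sub _ _
    _ < ε := by linarith

end AC8

/-- TARGET -/
theorem mk_le_continuum {Γ : Type} [Group Γ] [Countable Γ] {X : Type} [MeasurableSpace X]
    {μ : Measure X} [IsProbabilityMeasure μ] (S : Set (PmpAction Γ X μ)) (h : IsAntichainFree S) :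
    Cardinal.mk S ≤ Cardinal.continuum := by
  have hinj : Function.Injective (fun a : S => AC8.code a.1) := by
    intro a b hab
    by_contra hne
    have hne' : a.1 ≠ b.1 := fun e => hne (Subtype.ext e)
    have := (h.2 a.1 a.2 b.1 b.2 hne').2
    exact this (AC8.wc_of_code a.1 b.1 (le_of_eq hab.symm))
  calc Cardinal.mk S ≤ Cardinal.mk (Set (AC8.Cd Γ)) := Cardinal.mk_le_of_injective hinj
    _ = 2 ^ Cardinal.mk (AC8.Cd Γ) := Cardinal.mk_set
    _ ≤ 2 ^ Cardinal.aleph0 :=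
        Cardinal.power_le_power_left two_ne_zero Cardinal.mk_le_aleph0
    _ = Cardinal.continuum := Cardinal.two_power_aleph0

end Helper418AC
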