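import Pool.Agent.Helper418_AC.Defs

set_option autoImplicit false

namespace Helper418AC

open MeasureTheory Set
open scoped Pointwise ENNReal

/-- TARGET -/
theorem mix_real (s t c K : ℝ) (ht : 0 < t) (ht2 : t < 1) (hc : 0 < c)
    (h : ∀ ε : ℝ, 0 < ε → ∃ x y : ℝ, 0 ≤ x ∧ x ≤ 1 ∧ 0 ≤ y ∧ y ≤ 1 ∧
      c * (t * (x * (1 - x)) + (1 - t) * (y * (1 - y))) ≤ K * ε ∧
      |t * x + (1 - t) * y - s| ≤ ε) :
    s = 0 ∨ s = t ∨ s = 1 - t ∨ s = 1 := by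
  have h' : ∀ n : ℕ, ∃ p : ℝ × ℝ, p ∈ (Icc (0:ℝ) 1) ×ˢ (Icc (0:ℝ) 1) ∧
      c * (t * (p.1 * (1 - p.1)) + (1 - t) * (p.2 * (1 - p.2))) ≤ K * (1 / ((n:ℝ) + 1)) ∧
      |t * p.1 + (1 - t) * p.2 - s| ≤ 1 / ((n:ℝ) + 1) := by
    intro n
    obtain ⟨x, y, h1, h2, h3, h4, h5, h6⟩ := h (1 / ((n:ℝ) + 1)) (by positivity)
    exact ⟨(x, y), ⟨⟨h1, h2⟩, ⟨h3, h4⟩⟩, h5, h6⟩
  choose p hp1 hp2 hp3 using h'
  have hcomp : IsCompact ((Icc (0:ℝ) 1) ×ˢ (Icc (0:ℝ) 1)) := isCompact_Icc.prod isCompact_Icc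
  obtain ⟨q, hq, φ, hφ, hlim⟩ := hcomp.tendsto_subseq hp1
  have hε : Filter.Tendsto (fun n : ℕ => 1 / ((φ n : ℝ) + 1)) Filter.atTop (nhds 0) :=
    (tendsto_one_div_add_atTop_nhds_zero_nat (𝕜 := ℝ)).comp hφ.tendsto_atTop
  have c1 : Continuous fun p : ℝ × ℝ => c * (t * (p.1 * (1 - p.1)) + (1 - t) * (p.2 * (1 - p.2))) := by
    fun_prop
  have c2 : Continuous fun p : ℝ × ℝ => |t * p.1 + (1 - t) * p.2 - s| := by fun_prop
  have e1 : c * (t * (q.1 * (1 - q.1)) + (1 - t) * (q.2 * (1 - q.2))) ≤ K * 0 :=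
    le_of_tendsto_of_tendsto' ((c1.tendsto q).comp hlim) (hε.const_mul K) (fun n => hp2 (φ n))
  have e2 : |t * q.1 + (1 - t) * q.2 - s| ≤ 0 :=
    le_of_tendsto_of_tendsto' ((c2.tendsto q).comp hlim) hε (fun n => hp3 (φ n))
  obtain ⟨⟨a1, a2⟩, ⟨a3, a4⟩⟩ := hq
  have f1 : 0 ≤ q.1 * (1 - q.1) := mul_nonneg a1 (by linarith)
  have f2 : 0 ≤ q.2 * (1 - q.2) := mul_nonneg a3 (by linarith)
  have f3 : t * (q.1 * (1 - q.1)) + (1 - t) * (q.2 * (1 - q.2)) ≤ 0 := by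
    by_contra hcon
    push Not at hcon
    have := mul_pos hc hcon
    linarith
  have g1 : 0 ≤ t * (q.1 * (1 - q.1)) := mul_nonneg ht.le f1
  have g2 : 0 ≤ (1 - t) * (q.2 * (1 - q.2)) := mul_nonneg (by linarith) f2
  have k1 : t * (q.1 * (1 - q.1)) = 0 := by linarith
  have k2 : (1 - t) * (q.2 * (1 - q.2)) = 0 := by linarith
  have m1 : q.1 = 0 ∨ q.1 = 1 := by
    rcases mul_eq_zero.1 k1 with h | h
    · linarith
    · rcases mul_eq_zero.1 h with h | h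
      · exact Or.inl h
      · right; linarith
  have m2 : q.2 = 0 ∨ q.2 = 1 := by
    rcases mul_eq_zero.1 k2 with h | h
    · linarith
    · rcases mul_eq_zero.1 h with h | h
      · exact Or.inl h
      · right; linarith
  have hs : t * q.1 + (1 - t) * q.2 - s = 0 := abs_eq_zero.1 (le_antisymm e2 (abs_nonneg _))
  rcases m1 with m1 | m1 <;> rcases m2 with m2 | m2 <;> rw [m1, m2] at hs
  · left; linarith
  · right; right; left; linarith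
  · right; left; linarith
  · right; right; right; linarith

end Helper418AC
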