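import Pool.Agent.Helper418_AC.AC5
import Pool.Agent.Helper418_AC.AC6
import Pool.Agent.Helper418_AC.AC7
import Pool.Agent.Helper418_AC.AC8
import Pool.Agent.Helper418_AC.AC9
import Pool.Agent.Helper418_AC.Defs

set_option autoImplicit false

namespace Helper418AC

open MeasureTheory Set
open scoped Pointwise ENNReal

/-! GIVEN (proved elsewhere) -/








namespace AC10

/-- the coin of weight `t` -/
noncomputable def kap (t : ℝ) : Measure Bool :=
  ENNReal.ofReal t • Measure.dirac true + ENNReal.ofReal (1 - t) • Measure.dirac false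

theorem kap_prob {t : ℝ} (h0 : 0 ≤ t) (h1 : t ≤ 1) : IsProbabilityMeasure (kap t) := by
  refine ⟨?_⟩
  simp only [kap, Measure.add_apply, Measure.smul_apply, measure_univ, smul_eq_mul, mul_one]
  rw [← ENNReal.ofReal_add h0 (by linarith)]
  simp

theorem shift_one {Γ : Type} [Group Γ] (y : Γ → Bool) : shift 1 y = y := by
  funext k; simp [shift]

theorem shift_mul {Γ : Type} [Group Γ] (g h : Γ) (y : Γ → Bool) :
    shift (g * h) y = shift g (shift h y) := by
  funext k; simp [shift, mul_assoc]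

theorem shift_inv_shift {Γ : Type} [Group Γ] (g : Γ) (y : Γ → Bool) :
    shift g⁻¹ (shift g y) = y := by
  rw [← shift_mul, inv_mul_cancel, shift_one]

theorem shift_shift_inv {Γ : Type} [Group Γ] (g : Γ) (y : Γ → Bool) :
    shift g (shift g⁻¹ y) = y := by
  rw [← shift_mul, mul_inv_cancel, shift_one]

theorem shift_image {Γ : Type} [Group Γ] (g : Γ) (C : Set (Γ → Bool)) :
    shift g '' C = shift g⁻¹ ⁻¹' C :=
  congrFun (Set.image_eq_preimage_of_inverse (shift_inv_shift g) (shift_shift_inv g)) C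

/-- the product measure -/
noncomputable def zeta (Γ : Type) [Group Γ] (t : ℝ) : Measure ((Γ → Bool) × Bool) :=
  (bern Γ).prod (kap t)

/-- the section of `D` at `b` -/
def sec {Γ : Type} (b : Bool) (D : Set ((Γ → Bool) × Bool)) : Set (Γ → Bool) :=
  {y | (y, b) ∈ D}

theorem sec_meas {Γ : Type} (b : Bool) {D : Set ((Γ → Bool) × Bool)} (hD : MeasurableSet D) :
    MeasurableSet (sec b D) :=
  (measurable_id.prodMk measurable_const) hD

theorem zeta_real {Γ : Type} [Group Γ] {t : ℝ} (h0 : 0 ≤ t) (h1 : t ≤ 1)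
    {D : Set ((Γ → Bool) × Bool)} (hD : MeasurableSet D) :
    (zeta Γ t).real D = t * (bern Γ).real (sec true D) + (1 - t) * (bern Γ).real (sec false D) := by
  have := kap_prob h0 h1
  have e1 : (zeta Γ t) D = ENNReal.ofReal t * (bern Γ) (sec true D) +
      ENNReal.ofReal (1 - t) * (bern Γ) (sec false D) := by
    rw [zeta, Measure.prod_apply_symm hD]
    show ∫⁻ y, (bern Γ) ((fun x => (x, y)) ⁻¹' D) ∂(ENNReal.ofReal t • Measure.dirac true +
      ENNReal.ofReal (1 - t) • Measure.dirac false) = _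
    rw [lintegral_add_measure, lintegral_smul_measure, lintegral_smul_measure, lintegral_dirac,
      lintegral_dirac]
    rfl
  rw [Measure.real, e1, ENNReal.toReal_add, ENNReal.toReal_mul, ENNReal.toReal_mul,
    ENNReal.toReal_ofReal h0, ENNReal.toReal_ofReal (by linarith)]
  · rfl
  · exact ENNReal.mul_ne_top ENNReal.ofReal_ne_top (measure_ne_top _ _)
  · exact ENNReal.mul_ne_top ENNReal.ofReal_ne_top (measure_ne_top _ _)

section act

variable {Γ : Type} [Group Γ] {X : Type} [MeasurableSpace X] {μ : Measure X}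

/-- the action on `X` transported from the product -/
def actFun (e : (Γ → Bool) × Bool ≃ᵐ X) (g : Γ) (x : X) : X :=
  e (shift g (e.symm x).1, (e.symm x).2)

theorem prod_mp (t : ℝ) (h0 : 0 ≤ t) (h1 : t ≤ 1) (g : Γ) :
    MeasurePreserving (Prod.map (shift g) (id : Bool → Bool)) (zeta Γ t) (zeta Γ t) := by
  have := kap_prob h0 h1
  exact (shift_mp g).prod (MeasurePreserving.id (kap t))

/-- the action on `X` transported from the product -/
noncomputable def mkAct (t : ℝ) (h0 : 0 ≤ t) (h1 : t ≤ 1) (e : (Γ → Bool) × Bool ≃ᵐ X)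
    (he : MeasurePreserving e (zeta Γ t) μ) : PmpAction Γ X μ where
  act := actFun e
  one_act := by
    intro x
    simp [actFun, shift_one]
  mul_act := by
    intro g h x
    simp [actFun, shift_mul]
  mp := by
    intro g
    exact he.comp ((prod_mp t h0 h1 g).comp (he.symm e))

theorem mkAct_free [Infinite Γ] (t : ℝ) (h0 : 0 ≤ t) (h1 : t ≤ 1) (e : (Γ → Bool) × Bool ≃ᵐ X)
    (he : MeasurePreserving e (zeta Γ t) μ) : (mkAct t h0 h1 e he).IsFree := by
  intro g hg
  have := kap_prob h0 h1
  have h2 : ∀ᵐ z ∂(zeta Γ t), shift g z.1 ≠ z.1 :=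
    Measure.quasiMeasurePreserving_fst.ae (shift_free hg)
  have h3 : ∀ᵐ x ∂μ, shift g (e.symm x).1 ≠ (e.symm x).1 :=
    (he.symm e).quasiMeasurePreserving.ae h2
  filter_upwards [h3] with x hx hc
  apply hx
  have : e.symm (e (shift g (e.symm x).1, (e.symm x).2)) = e.symm x := congrArg e.symm hc
  rw [e.symm_apply_apply] at this
  exact congrArg Prod.fst this

/-- the pulled back set of a translate -/
theorem pull_act (e : (Γ → Bool) × Bool ≃ᵐ X) (g : Γ) (B : Set X) (b : Bool) :
    sec b (e ⁻¹' (actFun e g '' B)) = shift g '' sec b (e ⁻¹' B) := by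
  ext y
  constructor
  · rintro ⟨x, hx, hxe⟩
    have h1 := congrArg e.symm hxe
    simp only [actFun, e.symm_apply_apply] at h1
    refine ⟨(e.symm x).1, ?_, congrArg Prod.fst h1⟩
    have h2 : (e.symm x).2 = b := congrArg Prod.snd h1
    show e ((e.symm x).1, b) ∈ B
    rw [← h2]
    show e (e.symm x) ∈ B
    rw [e.apply_symm_apply]
    exact hx
  · rintro ⟨w, hw, rfl⟩
    refine ⟨e (w, b), hw, ?_⟩
    simp [actFun]

theorem real_pull (t : ℝ) (h0 : 0 ≤ t) (h1 : t ≤ 1) (e : (Γ → Bool) × Bool ≃ᵐ X)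
    (he : MeasurePreserving e (zeta Γ t) μ) {B : Set X} (hB : MeasurableSet B) :
    μ.real B = t * (bern Γ).real (sec true (e ⁻¹' B)) +
      (1 - t) * (bern Γ).real (sec false (e ⁻¹' B)) := by
  rw [← zeta_real h0 h1 (e.measurable hB), Measure.real, Measure.real,
    he.measure_preimage hB.nullMeasurableSet]

theorem symm_real (g : Γ) {C : Set (Γ → Bool)} (hC : MeasurableSet C) :
    (bern Γ).real (symmDiff (shift g '' C) C) =
      2 * ((bern Γ).real C - (bern Γ).real (shift g '' C ∩ C)) := by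
  have hm : MeasurableSet (shift g '' C) := by
    rw [shift_image]; exact (shift_mp g⁻¹).measurable hC
  have h1 : (bern Γ).real (shift g '' C) = (bern Γ).real C := by
    rw [shift_image, Measure.real, Measure.real,
      (shift_mp g⁻¹).measure_preimage hC.nullMeasurableSet]
  rw [measureReal_symmDiff_eq hm hC]
  have h2 := measureReal_inter_add_sdiff (μ := bern Γ) (s := shift g '' C) hC
  have h3 := measureReal_inter_add_sdiff (μ := bern Γ) (s := C) hm
  rw [Set.inter_comm] at h3
  linarith

theorem incomp (hA : ¬ Amenable Γ) [Countable Γ] (s t : ℝ) (hs0 : 0 < s)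
    (hs1 : s < 1 / 2) (ht0 : 0 < t) (ht1 : t < 1 / 2) (hs0' : 0 ≤ s) (hs1' : s ≤ 1) (ht0' : 0 ≤ t)
    (ht1' : t ≤ 1)
    (e : (Γ → Bool) × Bool ≃ᵐ X) (he : MeasurePreserving e (zeta Γ s) μ)
    (f : (Γ → Bool) × Bool ≃ᵐ X) (hf : MeasurePreserving f (zeta Γ t) μ)
    (hw : WeaklyContained (mkAct s hs0' hs1' e he) (mkAct t ht0' ht1' f hf)) : s = t := by
  classical
  obtain ⟨S, c, hc, hgap⟩ := bern_gap Γ hA
  have key := mix_real s t c (4 * S.card) ht0 (by linarith) hc ?_
  · rcases key with h | h | h | h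
    · exact absurd h hs0.ne'
    · exact h
    · exfalso; linarith
    · exfalso; linarith
  intro ε hε
  -- the invariant set
  set A : Set X := e.symm ⁻¹' (Set.univ ×ˢ {true}) with hAdef
  have hAm : MeasurableSet A :=
    e.symm.measurable (MeasurableSet.univ.prod (measurableSet_singleton true))
  have hpre : e ⁻¹' A = Set.univ ×ˢ {true} := by
    ext z
    simp [hAdef]
  have hAinv : ∀ g : Γ, actFun e g '' A = A := by
    intro g
    ext x
    constructor
    · rintro ⟨w, hw, rfl⟩
      have : (e.symm w).2 = true := by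
        simpa [hAdef] using hw
      simp [hAdef, actFun, this]
    · intro hx
      have h2 : (e.symm x).2 = true := by simpa [hAdef] using hx
      refine ⟨e (shift g⁻¹ (e.symm x).1, (e.symm x).2), ?_, ?_⟩
      · simp [hAdef, h2]
      · simp [actFun, shift_shift_inv]
  have hAreal : μ.real A = s := by
    rw [real_pull s hs0' hs1' e he hAm, hpre]
    have e1 : sec true ((Set.univ : Set (Γ → Bool)) ×ˢ ({true} : Set Bool)) = Set.univ := by
      ext y; simp [sec]
    have e2 : sec false ((Set.univ : Set (Γ → Bool)) ×ˢ ({true} : Set Bool)) = ∅ := by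
      ext y; simp [sec]
    rw [e1, e2]
    simp
  obtain ⟨B, hB, hBg⟩ := hw (insert 1 S) ε hε 1 (fun _ => A) (fun _ => hAm)
  have hBg' : ∀ g ∈ insert 1 S, |s - μ.real (actFun f g '' B 0 ∩ B 0)| < ε := by
    intro g hg
    have h := hBg g hg 0 0
    have e1 : (mkAct s hs0' hs1' e he).act g '' A ∩ A = A := by
      show actFun e g '' A ∩ A = A
      rw [hAinv, Set.inter_self]
    rw [e1, hAreal] at h
    exact h
  set T : Set (Γ → Bool) := sec true (f ⁻¹' (B 0)) with hT
  set F : Set (Γ → Bool) := sec false (f ⁻¹' (B 0)) with hF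
  have hBm := hB 0
  have hTm : MeasurableSet T := sec_meas _ (f.measurable hBm)
  have hFm : MeasurableSet F := sec_meas _ (f.measurable hBm)
  have hBreal : μ.real (B 0) = t * (bern Γ).real T + (1 - t) * (bern Γ).real F :=
    real_pull t ht0' ht1' f hf hBm
  have hBreal2 : ∀ g : Γ, μ.real (actFun f g '' B 0 ∩ B 0) =
      t * (bern Γ).real (shift g '' T ∩ T) + (1 - t) * (bern Γ).real (shift g '' F ∩ F) := by
    intro g
    have hm : MeasurableSet (actFun f g '' B 0) := by
      have : actFun f g '' B 0 = actFun f g⁻¹ ⁻¹' B 0 := by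
        refine congrFun (Set.image_eq_preimage_of_inverse ?_ ?_) (B 0)
        · intro x; simp [actFun, shift_inv_shift]
        · intro x; simp [actFun, shift_shift_inv]
      rw [this]
      exact ((mkAct t ht0' ht1' f hf).mp g⁻¹).measurable hBm
    rw [real_pull t ht0' ht1' f hf (hm.inter hBm)]
    have h2 : ∀ b, sec b (f ⁻¹' (actFun f g '' B 0 ∩ B 0)) =
        shift g '' sec b (f ⁻¹' (B 0)) ∩ sec b (f ⁻¹' (B 0)) := by
      intro b
      rw [← pull_act f g (B 0) b]
      rfl
    rw [h2, h2]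
  have hone := hBg' 1 (Finset.mem_insert_self _ _)
  rw [hBreal2 1] at hone
  have hi1 : ∀ C : Set (Γ → Bool), shift 1 '' C ∩ C = C := by
    intro C
    have : (shift (1 : Γ)) '' C = C := by
      ext y; simp [shift_one]
    rw [this, Set.inter_self]
  rw [hi1, hi1] at hone
  refine ⟨(bern Γ).real T, (bern Γ).real F, measureReal_nonneg, measureReal_le_one,
    measureReal_nonneg, measureReal_le_one, ?_, ?_⟩
  · have g1 := hgap T hTm
    have g2 := hgap F hFm
    have g3 : c * (t * ((bern Γ).real T * (1 - (bern Γ).real T)) +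
        (1 - t) * ((bern Γ).real F * (1 - (bern Γ).real F))) ≤
        t * ∑ g ∈ S, (bern Γ).real (symmDiff (shift g '' T) T) +
        (1 - t) * ∑ g ∈ S, (bern Γ).real (symmDiff (shift g '' F) F) := by
      have h1 := mul_le_mul_of_nonneg_left g1 ht0'
      have h2 := mul_le_mul_of_nonneg_left g2 (by linarith : (0 : ℝ) ≤ 1 - t)
      linarith
    refine g3.trans ?_
    rw [Finset.mul_sum, Finset.mul_sum, ← Finset.sum_add_distrib]
    have h4 : ∀ g ∈ S, t * (bern Γ).real (symmDiff (shift g '' T) T) +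
        (1 - t) * (bern Γ).real (symmDiff (shift g '' F) F) ≤ 4 * ε := by
      intro g hg
      rw [symm_real g hTm, symm_real g hFm]
      have h5 := hBg' g (Finset.mem_insert_of_mem hg)
      rw [hBreal2 g] at h5
      have h6 := abs_lt.1 h5
      have h7 := abs_lt.1 hone
      linarith [h6.1, h6.2, h7.1, h7.2]
    calc ∑ g ∈ S, (t * (bern Γ).real (symmDiff (shift g '' T) T) +
        (1 - t) * (bern Γ).real (symmDiff (shift g '' F) F)) ≤ ∑ g ∈ S, 4 * ε :=
          Finset.sum_le_sum h4
      _ = 4 * S.card * ε := by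
          rw [Finset.sum_const, nsmul_eq_mul]; ring
  · rw [abs_sub_comm]
    exact hone.le

theorem refl (a : PmpAction Γ X μ) : WeaklyContained a a := by
  intro F ε hε n A hA
  refine ⟨A, hA, ?_⟩
  intro g _ i j
  simpa using hε

end act

end AC10

/-! TARGETS -/
theorem exists_antichain (Γ : Type) [Group Γ] [Countable Γ] (h : ¬ Amenable Γ)
    (X : Type) [MeasurableSpace X] [StandardBorelSpace X] (μ : Measure X)
    [IsProbabilityMeasure μ] [NullSingletonClass μ] :
    ∃ S : Set (PmpAction Γ X μ), IsAntichainFree S ∧ Cardinal.mk S = Cardinal.continuum := by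
  have : Infinite Γ := infinite_of_not_amenable h
  have hex : ∀ t : Set.Ioo (0 : ℝ) (1 / 2), ∃ e : (Γ → Bool) × Bool ≃ᵐ X,
      MeasurePreserving e (AC10.zeta Γ t.1) μ := by
    intro t
    have := AC10.kap_prob (t := t.1) t.2.1.le (by linarith [t.2.2])
    have : NullSingletonClass (bern Γ) := bern_null
    have : IsProbabilityMeasure (AC10.zeta Γ t.1) := by
      unfold AC10.zeta; infer_instance
    have : NullSingletonClass (AC10.zeta Γ t.1) := by
      unfold AC10.zeta; infer_instance
    exact exists_measure_iso (AC10.zeta Γ t.1) μ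
  choose e he using hex
  let a : Set.Ioo (0 : ℝ) (1 / 2) → PmpAction Γ X μ := fun t =>
    AC10.mkAct t.1 t.2.1.le (by linarith [t.2.2]) (e t) (he t)
  have hinc : ∀ s t : Set.Ioo (0 : ℝ) (1 / 2), WeaklyContained (a s) (a t) → s = t := by
    intro s t hw
    exact Subtype.ext (AC10.incomp h s.1 t.1 s.2.1 s.2.2 t.2.1 t.2.2 s.2.1.le
      (by linarith [s.2.2]) t.2.1.le (by linarith [t.2.2]) (e s) (he s) (e t) (he t) hw)
  have hinj : Function.Injective a := by
    intro s t hst
    apply hinc s t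
    rw [hst]
    exact AC10.refl _
  refine ⟨Set.range a, ⟨?_, ?_⟩, ?_⟩
  · rintro _ ⟨t, rfl⟩
    exact AC10.mkAct_free t.1 t.2.1.le (by linarith [t.2.2]) (e t) (he t)
  · rintro _ ⟨s, rfl⟩ _ ⟨t, rfl⟩ hne
    refine ⟨fun hw => hne ?_, fun hw => hne ?_⟩
    · rw [hinc s t hw]
    · rw [hinc t s hw]
  · rw [Cardinal.mk_range_eq a hinj]
    exact Cardinal.mk_Ioo_real (by norm_num)

theorem width_eq (Γ : Type) [Group Γ] [Countable Γ] (h : ¬ Amenable Γ)
    (X : Type) [MeasurableSpace X] [StandardBorelSpace X] (μ : Measure X)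
    [IsProbabilityMeasure μ] [NullSingletonClass μ] :
    width Γ X μ = Cardinal.continuum := by
  obtain ⟨S, hS, hcard⟩ := exists_antichain Γ h X μ
  have hub : ∀ κ ∈ {κ : Cardinal | ∃ S : Set (PmpAction Γ X μ), IsAntichainFree S ∧
      κ = Cardinal.mk S}, κ ≤ Cardinal.continuum := by
    rintro κ ⟨S', hS', rfl⟩
    exact mk_le_continuum S' hS'
  apply le_antisymm
  · exact csSup_le' hub
  · exact le_csSup ⟨Cardinal.continuum, hub⟩ ⟨S, hS, hcard.symm⟩

end Helper418AC
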