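import Pool.Agent.Helper418_AC.Defs

set_option autoImplicit false

namespace Helper418AC

open MeasureTheory Set
open scoped Pointwise ENNReal

namespace AC2

variable {Γ : Type} [Group Γ] {P : Type} [MulAction Γ P]

theorem fiber_eq (p0 : P) (g0 : Γ) :
    {g : Γ | g • p0 = g0 • p0} = (fun h => g0 * h) '' (MulAction.stabilizer Γ p0 : Set Γ) := by
  ext g
  simp only [Set.mem_ofPred_eq, Set.mem_image, SetLike.mem_coe, MulAction.mem_stabilizer_iff]
  constructor
  · intro h
    refine ⟨g0⁻¹ * g, ?_, by group⟩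
    rw [mul_smul, h, inv_smul_smul]
  · rintro ⟨h, hh, rfl⟩
    rw [mul_smul, hh]

theorem pre_finite (p0 : P) (hP : (MulAction.stabilizer Γ p0 : Set Γ).Finite) (B : Finset P) :
    {g : Γ | g • p0 ∈ B}.Finite := by
  have key : ((fun g : Γ => g • p0) ⁻¹' (B : Set P)).Finite := by
    refine Set.Finite.preimage' B.finite_toSet ?_
    intro b _
    by_cases h : ∃ g0 : Γ, g0 • p0 = b
    · obtain ⟨g0, rfl⟩ := h
      have h1 : ((fun g : Γ => g • p0) ⁻¹' {g0 • p0}) = {g : Γ | g • p0 = g0 • p0} := rfl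
      rw [h1, fiber_eq]
      exact hP.image _
    · have h1 : ((fun g : Γ => g • p0) ⁻¹' {b}) = ∅ := by
        ext g
        simp only [Set.mem_preimage, Set.mem_singleton_iff, Set.mem_empty_iff_false, iff_false]
        intro hg
        exact h ⟨g, hg⟩
      rw [h1]
      exact Set.finite_empty
  exact key

theorem pre_card [DecidableEq Γ] [DecidableEq P] (p0 : P)
    (hP : (MulAction.stabilizer Γ p0 : Set Γ).Finite) (B : Finset P)
    (hB : ∀ b ∈ B, b ∈ MulAction.orbit Γ p0) :
    (pre_finite p0 hP B).toFinset.card = B.card * hP.toFinset.card := by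
  rw [Finset.card_eq_sum_card_fiberwise (f := fun g : Γ => g • p0) (t := B)]
  · rw [Finset.sum_const_nat]
    intro b hb
    obtain ⟨g0, rfl⟩ := hB b hb
    have h1 : ((pre_finite p0 hP B).toFinset.filter (fun g => g • p0 = g0 • p0))
        = hP.toFinset.image (fun h => g0 * h) := by
      ext g
      have h2 := Set.ext_iff.1 (fiber_eq p0 g0) g
      simp only [Set.mem_ofPred_eq, Set.mem_image, SetLike.mem_coe] at h2
      simp only [Finset.mem_filter, Set.Finite.mem_toFinset, Set.mem_ofPred_eq, Finset.mem_image,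
        SetLike.mem_coe]
      rw [← h2]
      constructor
      · intro h; exact h.2
      · intro h; exact ⟨by rw [h]; exact hb, h⟩
    show ((pre_finite p0 hP B).toFinset.filter (fun g => g • p0 = g0 • p0)).card = _
    rw [h1, Finset.card_image_of_injective _ (mul_right_injective g0)]
  · intro g hg
    have : g ∈ (pre_finite p0 hP B).toFinset := hg
    rw [Set.Finite.mem_toFinset] at this
    exact this

theorem one_orbit [DecidableEq Γ] [DecidableEq P] (S : Finset Γ) (c : ℝ)
    (h : ∀ A : Finset Γ, c * A.card ≤ ∑ s ∈ S, ((symmDiff (A.image (fun a => s * a)) A).card : ℝ))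
    (p0 : P) (hP : (MulAction.stabilizer Γ p0 : Set Γ).Finite) (B : Finset P)
    (hB : ∀ b ∈ B, b ∈ MulAction.orbit Γ p0) :
    c * B.card ≤ ∑ s ∈ S, ((symmDiff (B.image (fun a => s • a)) B).card : ℝ) := by
  have hk : 0 < hP.toFinset.card := by
    rw [Finset.card_pos]
    refine ⟨1, ?_⟩
    rw [Set.Finite.mem_toFinset]
    exact one_mem (MulAction.stabilizer Γ p0)
  have hk' : (0 : ℝ) < hP.toFinset.card := by exact_mod_cast hk
  have h1 := h (pre_finite p0 hP B).toFinset
  have h2 : ∀ s : Γ, (symmDiff ((pre_finite p0 hP B).toFinset.image (fun a => s * a))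
      (pre_finite p0 hP B).toFinset)
      = (pre_finite p0 hP (symmDiff (B.image (fun a => s • a)) B)).toFinset := by
    intro s
    ext g
    have e1 : (∃ a, a • p0 ∈ B ∧ s * a = g) ↔ (∃ b ∈ B, s • b = g • p0) := by
      constructor
      · rintro ⟨a, ha, rfl⟩
        exact ⟨a • p0, ha, by rw [mul_smul]⟩
      · rintro ⟨b, hb, hb2⟩
        refine ⟨s⁻¹ * g, ?_, by group⟩
        rw [mul_smul, ← hb2, inv_smul_smul]
        exact hb
    simp only [Finset.mem_symmDiff, Finset.mem_image, Set.Finite.mem_toFinset, Set.mem_ofPred_eq]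
    rw [e1]
  have h3 : ∀ s : Γ, ((symmDiff ((pre_finite p0 hP B).toFinset.image (fun a => s * a))
      (pre_finite p0 hP B).toFinset).card : ℝ)
      = ((symmDiff (B.image (fun a => s • a)) B).card : ℝ) * hP.toFinset.card := by
    intro s
    rw [h2 s, pre_card p0 hP]
    · push_cast; ring
    · intro b hb
      rw [Finset.mem_symmDiff] at hb
      rcases hb with ⟨hb, _⟩ | ⟨hb, _⟩
      · rw [Finset.mem_image] at hb
        obtain ⟨a, ha, rfl⟩ := hb
        obtain ⟨x, rfl⟩ := hB a ha
        exact ⟨s * x, by simp only [mul_smul]⟩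
      · exact hB b hb
  rw [Finset.sum_congr rfl (fun s _ => h3 s), ← Finset.sum_mul, pre_card p0 hP B hB] at h1
  push_cast at h1
  rw [← mul_assoc] at h1
  exact le_of_mul_le_mul_right h1 hk'

theorem split_card [DecidableEq P] (p0 : P) (s : Γ) (A A1 A2 : Finset P)
    (h1 : ∀ p, p ∈ A1 ↔ p ∈ A ∧ p ∈ MulAction.orbit Γ p0)
    (h2 : ∀ p, p ∈ A2 ↔ p ∈ A ∧ p ∉ MulAction.orbit Γ p0) :
    (symmDiff (A.image (fun a => s • a)) A).card
      = (symmDiff (A1.image (fun a => s • a)) A1).card
        + (symmDiff (A2.image (fun a => s • a)) A2).card := by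
  have ho : ∀ p : P, s • p ∈ MulAction.orbit Γ p0 ↔ p ∈ MulAction.orbit Γ p0 := by
    intro p
    constructor
    · rintro ⟨x, hx⟩
      refine ⟨s⁻¹ * x, ?_⟩
      simp only [mul_smul]
      have hx' : x • p0 = s • p := hx
      rw [hx', inv_smul_smul]
    · rintro ⟨x, hx⟩
      have hx' : x • p0 = p := hx
      exact ⟨s * x, by simp only [mul_smul]; rw [hx']⟩
  have m1 : ∀ p, p ∈ A1.image (fun a => s • a) ↔
      p ∈ A.image (fun a => s • a) ∧ p ∈ MulAction.orbit Γ p0 := by
    intro p
    simp only [Finset.mem_image]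
    constructor
    · rintro ⟨a, ha, rfl⟩
      exact ⟨⟨a, ((h1 a).1 ha).1, rfl⟩, (ho a).2 ((h1 a).1 ha).2⟩
    · rintro ⟨⟨a, ha, rfl⟩, hp⟩
      exact ⟨a, (h1 a).2 ⟨ha, (ho a).1 hp⟩, rfl⟩
  have m2 : ∀ p, p ∈ A2.image (fun a => s • a) ↔
      p ∈ A.image (fun a => s • a) ∧ p ∉ MulAction.orbit Γ p0 := by
    intro p
    simp only [Finset.mem_image]
    constructor
    · rintro ⟨a, ha, rfl⟩
      exact ⟨⟨a, ((h2 a).1 ha).1, rfl⟩, fun hh => ((h2 a).1 ha).2 ((ho a).1 hh)⟩
    · rintro ⟨⟨a, ha, rfl⟩, hp⟩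
      exact ⟨a, (h2 a).2 ⟨ha, fun hh => hp ((ho a).2 hh)⟩, rfl⟩
  rw [← Finset.card_union_of_disjoint]
  · congr 1
    ext p
    simp only [Finset.mem_symmDiff, Finset.mem_union, m1, m2, h1, h2]
    by_cases hp : p ∈ MulAction.orbit Γ p0
    · simp [hp]
    · simp [hp]
  · rw [Finset.disjoint_left]
    intro p hp1 hp2
    simp only [Finset.mem_symmDiff, m1, m2, h1, h2] at hp1 hp2
    by_cases hp : p ∈ MulAction.orbit Γ p0
    · simp [hp] at hp2
    · simp [hp] at hp1

end AC2

/-- TARGET -/
theorem iso_gap_P {Γ : Type} [Group Γ] [DecidableEq Γ] (S : Finset Γ) (c : ℝ)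
    (h : ∀ A : Finset Γ, c * A.card ≤ ∑ s ∈ S, ((symmDiff (A.image (fun a => s * a)) A).card : ℝ))
    {P : Type} [DecidableEq P] [MulAction Γ P]
    (hP : ∀ p : P, (MulAction.stabilizer Γ p : Set Γ).Finite) (A : Finset P) :
    c * A.card ≤ ∑ s ∈ S, ((symmDiff (A.image (fun a => s • a)) A).card : ℝ) := by
  classical
  induction' hn : A.card using Nat.strong_induction_on with n ih generalizing A
  rcases A.eq_empty_or_nonempty with rfl | ⟨p0, hp0⟩
  · rw [Finset.card_empty] at hn
    subst hn
    simp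
  · subst hn
    have hd : A.filter (fun p => p ∈ MulAction.orbit Γ p0) ∪
        A.filter (fun p => p ∉ MulAction.orbit Γ p0) = A := Finset.filter_union_filter_not_eq _ _
    have hc : (A.filter (fun p => p ∈ MulAction.orbit Γ p0)).card +
        (A.filter (fun p => p ∉ MulAction.orbit Γ p0)).card = A.card :=
      Finset.card_filter_add_card_filter_not _
    have hlt : (A.filter (fun p => p ∉ MulAction.orbit Γ p0)).card < A.card := by
      have : 0 < (A.filter (fun p => p ∈ MulAction.orbit Γ p0)).card := by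
        rw [Finset.card_pos]
        exact ⟨p0, Finset.mem_filter.2 ⟨hp0, MulAction.mem_orbit_self p0⟩⟩
      omega
    have i2 := ih _ hlt (A.filter (fun p => p ∉ MulAction.orbit Γ p0)) rfl
    have i1 := AC2.one_orbit S c h p0 (hP p0) (A.filter (fun p => p ∈ MulAction.orbit Γ p0))
      (fun b hb => (Finset.mem_filter.1 hb).2)
    have hs : ∀ s : Γ, ((symmDiff (A.image (fun a => s • a)) A).card : ℝ)
        = ((symmDiff ((A.filter (fun p => p ∈ MulAction.orbit Γ p0)).image (fun a => s • a))
            (A.filter (fun p => p ∈ MulAction.orbit Γ p0))).card : ℝ)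
          + ((symmDiff ((A.filter (fun p => p ∉ MulAction.orbit Γ p0)).image (fun a => s • a))
            (A.filter (fun p => p ∉ MulAction.orbit Γ p0))).card : ℝ) := by
      intro s
      have := AC2.split_card p0 s A (A.filter (fun p => p ∈ MulAction.orbit Γ p0))
        (A.filter (fun p => p ∉ MulAction.orbit Γ p0)) (fun p => Finset.mem_filter)
        (fun p => Finset.mem_filter)
      exact_mod_cast this
    rw [Finset.sum_congr rfl (fun s _ => hs s), Finset.sum_add_distrib, ← hc]
    push_cast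
    rw [mul_add]
    exact add_le_add i1 i2

end Helper418AC

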