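import Pool.Agent.Helper418_AC.Defs

set_option autoImplicit false

namespace Helper418AC

open MeasureTheory Set
open scoped Pointwise ENNReal

/-- Step 1: the layer cake inequality. -/
theorem AC3.l1_gap {Γ : Type} [Group Γ] [DecidableEq Γ] (S : Finset Γ) (c : ℝ)
    {P : Type} [DecidableEq P] [MulAction Γ P]
    (h : ∀ A : Finset P, c * A.card ≤ ∑ s ∈ S, ((symmDiff (A.image (fun a => s • a)) A).card : ℝ))
    (T : Finset P) : ∀ (k : ℕ) (g : P → ℝ), (∀ p, 0 ≤ g p) → (∀ p, p ∉ T → g p = 0) →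
    (∀ s ∈ S, ∀ p, p ∉ T → g (s⁻¹ • p) = 0) → (T.filter (fun p => g p ≠ 0)).card ≤ k →
    c * ∑ p ∈ T, g p ≤ ∑ s ∈ S, ∑ p ∈ T, |g (s⁻¹ • p) - g p| := by
  classical
  intro k
  induction k with
  | zero =>
    intro g _ _ _ hk
    have h0 : ∀ p ∈ T, g p = 0 := by
      intro p hp
      by_contra hne
      have : p ∈ T.filter (fun p => g p ≠ 0) := Finset.mem_filter.2 ⟨hp, hne⟩
      rw [Finset.card_eq_zero.1 (Nat.le_zero.1 hk)] at this
      simp at this
    rw [Finset.sum_eq_zero h0, mul_zero]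
    exact Finset.sum_nonneg fun s _ => Finset.sum_nonneg fun p _ => abs_nonneg _
  | succ k ih =>
    intro g hg0 hgT hgS hk
    set A := T.filter (fun p => g p ≠ 0) with hA
    by_cases hAe : A = ∅
    · have h0 : ∀ p ∈ T, g p = 0 := by
        intro p hp
        by_contra hne
        have : p ∈ A := Finset.mem_filter.2 ⟨hp, hne⟩
        rw [hAe] at this
        simp at this
      rw [Finset.sum_eq_zero h0, mul_zero]
      exact Finset.sum_nonneg fun s _ => Finset.sum_nonneg fun p _ => abs_nonneg _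
    obtain ⟨p0, hp0, hmin⟩ := Finset.exists_min_image A g (Finset.nonempty_iff_ne_empty.2 hAe)
    set m := g p0 with hm
    have hmpos : 0 < m := lt_of_le_of_ne (hg0 p0) (Ne.symm (Finset.mem_filter.1 hp0).2)
    have hmemA : ∀ p, p ∈ A ↔ g p ≠ 0 := by
      intro p
      rw [hA, Finset.mem_filter]
      constructor
      · exact fun h => h.2
      · intro hne
        refine ⟨?_, hne⟩
        by_contra hpT
        exact hne (hgT p hpT)
    have hz : ∀ p, p ∉ A → g p = 0 := by
      intro p hp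
      rw [hmemA] at hp
      exact not_not.1 hp
    set g' : P → ℝ := fun p => if p ∈ A then g p - m else g p with hg'
    have hg'0 : ∀ p, 0 ≤ g' p := by
      intro p
      simp only [hg']
      split_ifs with hp
      · have := hmin p hp
        linarith
      · exact hg0 p
    have hg'z : ∀ p, g p = 0 → g' p = 0 := by
      intro p hp
      have : p ∉ A := by rw [hmemA]; exact not_not.2 hp
      simp only [hg']
      rw [if_neg this, hp]
    have hcard : (T.filter (fun p => g' p ≠ 0)).card ≤ k := by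
      have hlt : (T.filter (fun p => g' p ≠ 0)) ⊂ A := by
        rw [Finset.ssubset_iff_of_subset]
        · refine ⟨p0, hp0, ?_⟩
          rw [Finset.mem_filter]
          rintro ⟨_, hne⟩
          apply hne
          simp only [hg']
          rw [if_pos hp0, hm, sub_self]
        · intro p hp
          rw [Finset.mem_filter] at hp
          rw [hmemA]
          intro h0
          exact hp.2 (hg'z p h0)
      have := Finset.card_lt_card hlt
      omega
    have hih := ih g' hg'0 (fun p hp => hg'z p (hgT p hp))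
      (fun s hs p hp => hg'z _ (hgS s hs p hp)) hcard
    -- the sum of `g`
    have hsum : ∑ p ∈ T, g p = m * A.card + ∑ p ∈ T, g' p := by
      have h1 : ∀ p ∈ T, g p = (if p ∈ A then m else 0) + g' p := by
        intro p _
        simp only [hg']
        split_ifs <;> ring
      rw [Finset.sum_congr rfl h1, Finset.sum_add_distrib, Finset.sum_ite_mem,
        Finset.inter_eq_right.2 (Finset.filter_subset _ _), Finset.sum_const, nsmul_eq_mul]
      ring
    -- the pointwise identity
    have hpt : ∀ s ∈ S, ∑ p ∈ T, |g (s⁻¹ • p) - g p| =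
        m * ((symmDiff (A.image (fun a => s • a)) A).card : ℝ) +
          ∑ p ∈ T, |g' (s⁻¹ • p) - g' p| := by
      intro s hs
      have hmem : ∀ p, p ∈ A.image (fun a => s • a) ↔ s⁻¹ • p ∈ A := by
        intro p
        rw [Finset.mem_image]
        constructor
        · rintro ⟨a, ha, rfl⟩
          rwa [inv_smul_smul]
        · intro h1
          exact ⟨_, h1, smul_inv_smul s p⟩
      have h1 : ∀ p ∈ T, |g (s⁻¹ • p) - g p| =
          (if p ∈ symmDiff (A.image (fun a => s • a)) A then m else 0) +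
            |g' (s⁻¹ • p) - g' p| := by
        intro p _
        have hsd : p ∈ symmDiff (A.image (fun a => s • a)) A ↔
            (s⁻¹ • p ∈ A ∧ p ∉ A) ∨ (p ∈ A ∧ s⁻¹ • p ∉ A) := by
          rw [Finset.mem_symmDiff, hmem]
        simp only [hg']
        by_cases h2 : s⁻¹ • p ∈ A <;> by_cases h3 : p ∈ A
        · rw [if_pos h2, if_pos h3, if_neg (by rw [hsd]; tauto)]
          rw [zero_add]
          congr 1
          ring
        · rw [if_pos h2, if_neg h3, if_pos (by rw [hsd]; tauto), hz p h3]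
          have h4 := hmin _ h2
          rw [sub_zero, sub_zero, abs_of_nonneg (hg0 _), abs_of_nonneg (by linarith)]
          ring
        · rw [if_neg h2, if_pos h3, if_pos (by rw [hsd]; tauto), hz _ h2]
          have h4 := hmin _ h3
          rw [zero_sub, zero_sub, abs_neg, abs_neg, abs_of_nonneg (hg0 _),
            abs_of_nonneg (by linarith)]
          ring
        · rw [if_neg h2, if_neg h3, if_neg (by rw [hsd]; tauto), zero_add]
      rw [Finset.sum_congr rfl h1, Finset.sum_add_distrib, Finset.sum_ite_mem]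
      have h5 : T ∩ symmDiff (A.image (fun a => s • a)) A =
          symmDiff (A.image (fun a => s • a)) A := by
        rw [Finset.inter_eq_right]
        intro p hp
        rw [Finset.mem_symmDiff, hmem] at hp
        rcases hp with hp | hp
        · by_contra hpT
          have := hgS s hs p hpT
          rw [hmemA] at hp
          exact hp.1 this
        · exact (Finset.mem_filter.1 hp.1).1
      rw [h5, Finset.sum_const, nsmul_eq_mul]
      ring
    rw [Finset.sum_congr rfl hpt, Finset.sum_add_distrib, ← Finset.mul_sum, hsum]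
    have h6 := mul_le_mul_of_nonneg_left (h A) hmpos.le
    nlinarith

/-- TARGET -/
theorem l2_gap {Γ : Type} [Group Γ] [DecidableEq Γ] (S : Finset Γ) (c : ℝ) (hc : 0 < c)
    {P : Type} [DecidableEq P] [MulAction Γ P]
    (h : ∀ A : Finset P, c * A.card ≤ ∑ s ∈ S, ((symmDiff (A.image (fun a => s • a)) A).card : ℝ))
    (f : P → ℝ) (T : Finset P) (hT : ∀ p, p ∉ T → f p = 0) (hST : ∀ s ∈ S, ∀ p, p ∉ T → f (s⁻¹ • p) = 0) :
    c ^ 2 / (4 * (S.card + 1)) * ∑ p ∈ T, f p ^ 2
      ≤ ∑ s ∈ S, ∑ p ∈ T, (f (s⁻¹ • p) - f p) ^ 2 := by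
  set N := ∑ p ∈ T, f p ^ 2 with hN
  have hN0 : 0 ≤ N := Finset.sum_nonneg fun p _ => sq_nonneg _
  have h1 := AC3.l1_gap S c h T _ (fun p => f p ^ 2) (fun p => sq_nonneg _)
    (fun p hp => by simp [hT p hp]) (fun s hs p hp => by simp [hST s hs p hp]) le_rfl
  rw [← hN] at h1
  set L : ℝ := 4 * (S.card + 1) / c with hL
  have hLpos : 0 < L := by positivity
  -- the shifted sum
  have h2 : ∀ s ∈ S, ∑ p ∈ T, f (s⁻¹ • p) ^ 2 ≤ N := by
    intro s _
    have hinj : Function.Injective (fun p : P => s⁻¹ • p) := MulAction.injective s⁻¹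
    have h3 : ∑ p ∈ T, f (s⁻¹ • p) ^ 2 = ∑ q ∈ T.image (fun p => s⁻¹ • p), f q ^ 2 := by
      rw [Finset.sum_image (fun a _ b _ hab => hinj hab)]
    have h4 : ∑ q ∈ T, f q ^ 2 = ∑ q ∈ T ∪ T.image (fun p => s⁻¹ • p), f q ^ 2 := by
      apply Finset.sum_subset Finset.subset_union_left
      intro q _ hq
      rw [hT q hq]
      ring
    rw [h3, hN, h4]
    exact Finset.sum_le_sum_of_subset_of_nonneg Finset.subset_union_right
      fun q _ _ => sq_nonneg _
  -- pointwise
  have h5 : ∀ s ∈ S, ∑ p ∈ T, |f (s⁻¹ • p) ^ 2 - f p ^ 2| ≤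
      L / 2 * ∑ p ∈ T, (f (s⁻¹ • p) - f p) ^ 2 + 1 / (2 * L) * (4 * N) := by
    intro s hs
    have h6 : ∀ p ∈ T, |f (s⁻¹ • p) ^ 2 - f p ^ 2| ≤
        L / 2 * (f (s⁻¹ • p) - f p) ^ 2 + 1 / (2 * L) * (2 * f (s⁻¹ • p) ^ 2 + 2 * f p ^ 2) := by
      intro p _
      set u := f (s⁻¹ • p) - f p with hu
      set v := f (s⁻¹ • p) + f p with hv
      have h7 : f (s⁻¹ • p) ^ 2 - f p ^ 2 = u * v := by rw [hu, hv]; ring
      have h8 : v ^ 2 ≤ 2 * f (s⁻¹ • p) ^ 2 + 2 * f p ^ 2 := by
        have : 0 ≤ u ^ 2 := sq_nonneg u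
        rw [hv]
        rw [hu] at this
        nlinarith
      have h9 : |u * v| ≤ L / 2 * u ^ 2 + 1 / (2 * L) * v ^ 2 := by
        rw [abs_mul, ← sq_abs u, ← sq_abs v]
        have h10 : 0 ≤ (L * |u| - |v|) ^ 2 / (2 * L) := by positivity
        have h11 : (L * |u| - |v|) ^ 2 / (2 * L) =
            L / 2 * |u| ^ 2 + 1 / (2 * L) * |v| ^ 2 - |u| * |v| := by
          field_simp
          ring
        rw [h11] at h10
        linarith
      rw [h7]
      have h12 : 1 / (2 * L) * v ^ 2 ≤ 1 / (2 * L) * (2 * f (s⁻¹ • p) ^ 2 + 2 * f p ^ 2) :=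
        mul_le_mul_of_nonneg_left h8 (by positivity)
      linarith
    refine (Finset.sum_le_sum h6).trans ?_
    rw [Finset.sum_add_distrib, ← Finset.mul_sum, ← Finset.mul_sum, Finset.sum_add_distrib,
      ← Finset.mul_sum, ← Finset.mul_sum]
    have h13 : 1 / (2 * L) * (2 * ∑ p ∈ T, f (s⁻¹ • p) ^ 2 + 2 * ∑ p ∈ T, f p ^ 2) ≤
        1 / (2 * L) * (4 * N) := by
      refine mul_le_mul_of_nonneg_left ?_ (by positivity)
      have := h2 s hs
      linarith
    linarith
  have h14 := h1.trans (Finset.sum_le_sum h5)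
  rw [Finset.sum_add_distrib, ← Finset.mul_sum, Finset.sum_const, nsmul_eq_mul] at h14
  set D := ∑ s ∈ S, ∑ p ∈ T, (f (s⁻¹ • p) - f p) ^ 2 with hD
  have hS0 : (0 : ℝ) < (S.card : ℝ) + 1 := by positivity
  have h15 : (S.card : ℝ) * (1 / (2 * L) * (4 * N)) ≤ c / 2 * N := by
    have h16 : (S.card : ℝ) * (1 / (2 * L) * (4 * N)) =
        c / 2 * N * ((S.card : ℝ) / ((S.card : ℝ) + 1)) := by
      rw [hL]
      field_simp
    rw [h16]
    have h17 : (S.card : ℝ) / ((S.card : ℝ) + 1) ≤ 1 := by
      rw [div_le_one hS0]; linarith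
    have h18 : 0 ≤ c / 2 * N := by positivity
    nlinarith
  have h19 : c / 2 * N ≤ L / 2 * D := by linarith
  have h20 : c ^ 2 / (4 * ((S.card : ℝ) + 1)) * N = (c / 2 * N) * (2 / L) := by
    rw [hL]
    field_simp
    try ring
  have h21 : (L / 2 * D) * (2 / L) = D := by
    have hL0 : L ≠ 0 := hLpos.ne'
    field_simp
  rw [h20, ← h21]
  exact mul_le_mul_of_nonneg_right h19 (by positivity)

end Helper418AC
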