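import Pool.Agent.Helper418_AC.Defs

set_option autoImplicit false

namespace Helper418AC

open MeasureTheory Set
open scoped Pointwise ENNReal

/-- sign of a bit -/
def sg (b : Bool) : ℝ := if b then 1 else -1

/-- Walsh function -/
def wal {Γ : Type} (T : Finset Γ) (y : Γ → Bool) : ℝ := ∏ t ∈ T, sg (y t)

namespace AC4

lemma integral_coin (f : Bool → ℝ) : ∫ b, f b ∂coin = (f true + f false) / 2 := by
  unfold coin
  rw [integral_smul_measure, integral_add_measure (by simp) (by simp)]
  simp
  ring

lemma sg_mul_self (b : Bool) : sg b * sg b = 1 := by cases b <;> simp [sg]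

lemma integral_prod {Γ : Type} [DecidableEq Γ] (s : Finset Γ) (h : Γ → Bool → ℝ) :
    ∫ y, ∏ t ∈ s, h t (y t) ∂(bern Γ) = ∏ t ∈ s, ((h t true + h t false) / 2) := by
  have h1 : ∫ y, ∏ t ∈ s, h t (y t) ∂(bern Γ) =
      ∫ y, (fun z : (i : s) → Bool => ∏ t : s, h t (z t)) (s.restrict y) ∂(bern Γ) := by
    congr 1
    ext y
    rw [← Finset.prod_coe_sort]
    rfl
  rw [h1]
  unfold bern
  have key := integral_restrict_infinitePi (μ := fun _ : Γ => coin) (s := s)
    (f := fun z : (i : s) → Bool => ∏ t : s, h t (z t))
    (measurable_of_countable _).aestronglyMeasurable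
  refine key.trans ?_
  have k2 := integral_fintype_prod_eq_prod (ι := s) (E := fun _ => Bool) (fun t : s => h t)
    (μ := fun _ => coin)
  refine k2.trans ?_
  rw [← Finset.prod_coe_sort s (fun t => (h t true + h t false) / 2)]
  exact Finset.prod_congr rfl (fun t _ => integral_coin _)

end AC4

/-! TARGETS -/
theorem wal_orth {Γ : Type} [Group Γ] [DecidableEq Γ] (T T' : Finset Γ) :
    ∫ y, wal T y * wal T' y ∂(bern Γ) = if T = T' then 1 else 0 := by
  let h : Γ → Bool → ℝ := fun t b => (if t ∈ T then sg b else 1) * (if t ∈ T' then sg b else 1)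
  have h1 : ∀ y : Γ → Bool, wal T y * wal T' y = ∏ t ∈ T ∪ T', h t (y t) := by
    intro y
    simp only [h, wal]
    rw [Finset.prod_mul_distrib]
    congr 1
    · rw [Finset.prod_ite_mem]
      congr 1
      ext t; simp +contextual
    · rw [Finset.prod_ite_mem]
      congr 1
      ext t; simp +contextual
  simp only [h1]
  rw [AC4.integral_prod]
  split_ifs with hT
  · subst hT
    apply Finset.prod_eq_one
    intro t ht
    have : t ∈ T := by simpa using ht
    simp [h, this, AC4.sg_mul_self]
  · have : ∃ t, ¬ (t ∈ T ↔ t ∈ T') := by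
      by_contra hc
      push Not at hc
      exact hT (Finset.ext hc)
    obtain ⟨t, ht⟩ := this
    apply Finset.prod_eq_zero (i := t)
    · by_contra hc
      simp only [Finset.mem_union, not_or] at hc
      exact ht ⟨fun h => absurd h hc.1, fun h => absurd h hc.2⟩
    · by_cases h1 : t ∈ T
      · have h2 : t ∉ T' := fun h2 => ht ⟨fun _ => h2, fun _ => h1⟩
        simp [h, h1, h2, sg]
      · have h2 : t ∈ T' := by
          by_contra h2
          exact ht ⟨fun h => absurd h h1, fun h => absurd h h2⟩
        simp [h, h1, h2, sg]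

theorem wal_expand {Γ : Type} [DecidableEq Γ] (T0 : Finset Γ) (F : (Γ → Bool) → ℝ)
    (hF : ∀ y y' : Γ → Bool, (∀ t ∈ T0, y t = y' t) → F y = F y') :
    ∃ a : Finset Γ → ℝ, (∀ T, ¬ T ⊆ T0 → a T = 0) ∧ ∀ y, F y = ∑ T ∈ T0.powerset, a T * wal T y := by
  induction T0 using Finset.induction_on generalizing F with
  | empty =>
    refine ⟨fun T => if T ⊆ ∅ then F (fun _ => true) else 0, ?_, ?_⟩
    · intro T hT; simp only [hT, if_false]
    · intro y
      simp only [Finset.powerset_empty, Finset.sum_singleton, wal, Finset.prod_empty]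
      simp
      exact hF _ _ (by simp)
  | insert t T0 ht ih =>
    let F1 : (Γ → Bool) → ℝ := fun y => F (Function.update y t true)
    let F0 : (Γ → Bool) → ℝ := fun y => F (Function.update y t false)
    have hup : ∀ (b : Bool) (y y' : Γ → Bool), (∀ s ∈ T0, y s = y' s) →
        F (Function.update y t b) = F (Function.update y' t b) := by
      intro b y y' hy
      apply hF
      intro s hs
      rcases Finset.mem_insert.1 hs with rfl | hs'
      · simp
      · have hne : s ≠ t := fun h => ht (h ▸ hs')
        simp [Function.update_of_ne hne, hy s hs']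
    obtain ⟨a1, ha1, hb1⟩ := ih F1 (hup true)
    obtain ⟨a0, ha0, hb0⟩ := ih F0 (hup false)
    refine ⟨fun T => if t ∈ T then (a1 (T.erase t) - a0 (T.erase t)) / 2 else (a1 T + a0 T) / 2, ?_, ?_⟩
    · intro T hT
      have hT' : ¬ T.erase t ⊆ T0 := by
        intro h
        apply hT
        intro s hs
        by_cases hst : s = t
        · exact Finset.mem_insert.2 (Or.inl hst)
        · exact Finset.mem_insert_of_mem (h (Finset.mem_erase.2 ⟨hst, hs⟩))
      by_cases hm : t ∈ T
      · simp only [hm, if_true]
        rw [ha1 _ hT', ha0 _ hT']; simp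
      · simp only [hm, if_false]
        rw [Finset.erase_eq_of_notMem hm] at hT'
        rw [ha1 _ hT', ha0 _ hT']; simp
    · intro y
      have hdec : F y = (F1 y + F0 y) / 2 + (F1 y - F0 y) / 2 * sg (y t) := by
        rcases hb : y t with _ | _
        · have : F0 y = F y := by
            simp only [F0]
            congr 1
            rw [← hb, Function.update_eq_self]
          simp [sg, this]; ring
        · have : F1 y = F y := by
            simp only [F1]
            congr 1
            rw [← hb, Function.update_eq_self]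
          simp [sg, this]; ring
      rw [hdec, hb1 y, hb0 y, Finset.sum_powerset_insert ht]
      have e1 : ∀ T ∈ T0.powerset, t ∉ T := fun T hT h => ht (Finset.mem_powerset.1 hT h)
      have e2 : ∑ T ∈ T0.powerset, (if t ∈ T then (a1 (T.erase t) - a0 (T.erase t)) / 2 else (a1 T + a0 T) / 2) * wal T y
          = ∑ T ∈ T0.powerset, (a1 T + a0 T) / 2 * wal T y := by
        apply Finset.sum_congr rfl
        intro T hT
        rw [if_neg (e1 T hT)]
      have e3 : ∑ T ∈ T0.powerset, (if t ∈ insert t T then (a1 ((insert t T).erase t) - a0 ((insert t T).erase t)) / 2 else (a1 (insert t T) + a0 (insert t T)) / 2) * wal (insert t T) y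
          = ∑ T ∈ T0.powerset, (a1 T - a0 T) / 2 * (sg (y t) * wal T y) := by
        apply Finset.sum_congr rfl
        intro T hT
        rw [if_pos (Finset.mem_insert_self _ _), Finset.erase_insert (e1 T hT)]
        simp only [wal]
        rw [Finset.prod_insert (e1 T hT)]
      simp only [] at e2 e3 ⊢
      rw [e2, e3, ← Finset.sum_add_distrib, ← Finset.sum_sub_distrib, ← Finset.sum_add_distrib,
        Finset.sum_div, Finset.sum_div, Finset.sum_mul, ← Finset.sum_add_distrib]
      apply Finset.sum_congr rfl
      intro T _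
      ring

end Helper418AC
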