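import Pool.Agent.Helper418_AC.AC1
import Pool.Agent.Helper418_AC.AC2
import Pool.Agent.Helper418_AC.AC3
import Pool.Agent.Helper418_AC.AC4
import Pool.Agent.Helper418_AC.AC6
import Pool.Agent.Helper418_AC.Defs

set_option autoImplicit false

namespace Helper418AC

open MeasureTheory Set
open scoped Pointwise ENNReal

/-! GIVEN (proved elsewhere) -/



namespace AC5

section Defs
variable {Γ : Type} [Group Γ]

lemma shift_inv_shift (g : Γ) (y : Γ → Bool) : shift g⁻¹ (shift g y) = y := by
  funext h
  simp [shift]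

lemma shift_shift_inv (g : Γ) (y : Γ → Bool) : shift g (shift g⁻¹ y) = y := by
  funext h
  simp [shift]

lemma image_shift (g : Γ) (B : Set (Γ → Bool)) : shift g '' B = shift g⁻¹ ⁻¹' B := by
  ext y
  constructor
  · rintro ⟨z, hz, rfl⟩
    simpa [shift_inv_shift] using hz
  · intro hy
    exact ⟨shift g⁻¹ y, hy, shift_shift_inv g y⟩

lemma sg_mul_self (b : Bool) : sg b * sg b = 1 := by
  cases b <;> simp [sg]

lemma abs_sg (b : Bool) : |sg b| = 1 := by
  cases b <;> simp [sg]

lemma abs_wal (T : Finset Γ) (y : Γ → Bool) : |wal T y| = 1 := by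
  unfold wal
  rw [Finset.abs_prod]
  exact Finset.prod_eq_one (fun t _ => abs_sg _)

lemma measurable_wal (T : Finset Γ) : Measurable (fun y : Γ → Bool => wal T y) := by
  unfold wal
  refine Finset.measurable_prod _ (fun t _ => ?_)
  exact (measurable_of_countable sg).comp (measurable_pi_apply t)

lemma integrable_wal_mul (T T' : Finset Γ) :
    Integrable (fun y : Γ → Bool => wal T y * wal T' y) (bern Γ) := by
  refine Integrable.of_bound ((measurable_wal T).mul (measurable_wal T')).aestronglyMeasurable 1 ?_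
  refine Filter.Eventually.of_forall (fun y => ?_)
  rw [Real.norm_eq_abs, abs_mul, abs_wal, abs_wal]
  norm_num

variable [DecidableEq Γ]

lemma wal_shift (T : Finset Γ) (g : Γ) (y : Γ → Bool) :
    wal T (shift g y) = wal (T.image (fun t => g⁻¹ * t)) y := by
  unfold wal shift
  rw [Finset.prod_image]
  intro a _ b _ hab
  exact mul_left_cancel hab

lemma parseval (Q : Finset (Finset Γ)) (b : Finset Γ → ℝ) :
    ∫ y, (∑ T ∈ Q, b T * wal T y) ^ 2 ∂(bern Γ) = ∑ T ∈ Q, b T ^ 2 := by
  have h1 : ∀ y : Γ → Bool, (∑ T ∈ Q, b T * wal T y) ^ 2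
      = ∑ T ∈ Q, ∑ T' ∈ Q, (b T * b T') * (wal T y * wal T' y) := by
    intro y
    rw [sq, Finset.sum_mul_sum]
    refine Finset.sum_congr rfl (fun T _ => Finset.sum_congr rfl (fun T' _ => ?_))
    ring
  simp_rw [h1]
  rw [integral_finset_sum]
  · refine Finset.sum_congr rfl (fun T hT => ?_)
    rw [integral_finset_sum]
    · have h2 : ∀ T' ∈ Q, ∫ y, (b T * b T') * (wal T y * wal T' y) ∂(bern Γ)
          = if T = T' then b T * b T' else 0 := by
        intro T' _
        rw [integral_const_mul, wal_orth]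
        split_ifs <;> simp
      rw [Finset.sum_congr rfl h2, Finset.sum_ite_eq]
      simp [hT, sq]
    · intro T' _
      exact (integrable_wal_mul T T').const_mul _
  · intro T _
    refine integrable_finset_sum _ (fun T' _ => ?_)
    exact (integrable_wal_mul T T').const_mul _

lemma int_wal (Q : Finset (Finset Γ)) (hQ : ∅ ∈ Q) (b : Finset Γ → ℝ) :
    ∫ y, (∑ T ∈ Q, b T * wal T y) ∂(bern Γ) = b ∅ := by
  have h0 : ∀ (T : Finset Γ) (y : Γ → Bool), b T * wal T y = b T * (wal T y * wal ∅ y) := by
    intro T y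
    simp [wal]
  simp_rw [h0]
  rw [integral_finset_sum]
  · have h2 : ∀ T ∈ Q, ∫ y, b T * (wal T y * wal ∅ y) ∂(bern Γ)
        = if T = ∅ then b T else 0 := by
      intro T _
      rw [integral_const_mul, wal_orth]
      split_ifs <;> simp
    rw [Finset.sum_congr rfl h2, Finset.sum_ite_eq']
    simp [hQ]
  · intro T _
    exact (integrable_wal_mul T ∅).const_mul _

/-- nonempty finite subsets -/
abbrev NF (Γ : Type) : Type := {T : Finset Γ // T.Nonempty}

instance instAct : MulAction Γ (NF Γ) where
  smul g T := ⟨T.1.image (fun t => g * t), T.2.image _⟩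
  one_smul T := by
    apply Subtype.ext
    change T.1.image (fun t => 1 * t) = T.1
    simp
  mul_smul g h T := by
    apply Subtype.ext
    change T.1.image (fun t => (g * h) * t) = (T.1.image (fun t => h * t)).image (fun t => g * t)
    rw [Finset.image_image]
    congr 1
    funext t
    simp [mul_assoc]

lemma smul_val (g : Γ) (T : NF Γ) : (g • T).1 = T.1.image (fun t => g * t) := rfl

lemma stab_fin (p : NF Γ) : (MulAction.stabilizer Γ p : Set Γ).Finite := by
  obtain ⟨t0, ht0⟩ := p.2
  have : (MulAction.stabilizer Γ p : Set Γ) ⊆ (fun g => g * t0) ⁻¹' (p.1 : Set Γ) := by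
    intro g hg
    have hg' : g • p = p := hg
    have h1 : p.1.image (fun t => g * t) = p.1 := by
      rw [← smul_val, hg']
    have h2 : g * t0 ∈ p.1.image (fun t => g * t) := Finset.mem_image_of_mem _ ht0
    rw [h1] at h2
    exact h2
  refine Set.Finite.subset ?_ this
  refine Set.Finite.preimage ?_ (Finset.finite_toSet _)
  intro a _ b _ hab
  exact mul_right_cancel hab

end Defs

section Cyl
variable {Γ : Type} [Group Γ] [DecidableEq Γ]

lemma int_sq_indicator (B : Set (Γ → Bool)) (hB : MeasurableSet B) :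
    ∫ y, (B.indicator (fun _ => (1 : ℝ)) y - (bern Γ).real B) ^ 2 ∂(bern Γ)
      = (bern Γ).real B * (1 - (bern Γ).real B) := by
  have h1 : ∀ y, (B.indicator (fun _ => (1 : ℝ)) y - (bern Γ).real B) ^ 2
      = B.indicator (fun _ => (1 : ℝ)) y * (1 - 2 * (bern Γ).real B) + ((bern Γ).real B) ^ 2 := by
    intro y
    by_cases hy : y ∈ B
    · simp [hy]; ring
    · simp [hy]
  have hi : Integrable (B.indicator (fun _ => (1 : ℝ))) (bern Γ) :=
    (integrable_const (1 : ℝ)).indicator hB
  simp_rw [h1]
  rw [integral_add (hi.mul_const _) (integrable_const _), integral_mul_const,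
    integral_indicator hB]
  simp
  ring

lemma int_indicator (B : Set (Γ → Bool)) (hB : MeasurableSet B) :
    ∫ y, (B.indicator (fun _ => (1 : ℝ)) y - (bern Γ).real B) ∂(bern Γ) = 0 := by
  have hi : Integrable (B.indicator (fun _ => (1 : ℝ))) (bern Γ) :=
    (integrable_const (1 : ℝ)).indicator hB
  rw [integral_sub hi (integrable_const _), integral_indicator hB]
  simp

lemma int_symm (A B : Set (Γ → Bool)) (hA : MeasurableSet A) (hB : MeasurableSet B) :
    ∫ y, (A.indicator (fun _ => (1 : ℝ)) y - B.indicator (fun _ => (1 : ℝ)) y) ^ 2 ∂(bern Γ)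
      = (bern Γ).real (symmDiff A B) := by
  have h1 : ∀ y, (A.indicator (fun _ => (1 : ℝ)) y - B.indicator (fun _ => (1 : ℝ)) y) ^ 2
      = (symmDiff A B).indicator (fun _ => (1 : ℝ)) y := by
    intro y
    by_cases hy : y ∈ A <;> by_cases hz : y ∈ B <;> simp [hy, hz, Set.mem_symmDiff]
  simp_rw [h1]
  rw [integral_indicator (hA.symmDiff hB)]
  simp

lemma cyl_gap (S : Finset Γ) (c : ℝ) (hc : 0 < c)
    (hS : ∀ A : Finset Γ, c * A.card ≤ ∑ s ∈ S, ((symmDiff (A.image (fun a => s * a)) A).card : ℝ))
    (B : Set (Γ → Bool)) (hB : MeasurableSet B) (T0 : Finset Γ)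
    (hT0 : ∀ y y' : Γ → Bool, (∀ t ∈ T0, y t = y' t) → (y ∈ B ↔ y' ∈ B)) :
    c ^ 2 / (4 * (S.card + 1)) * ((bern Γ).real B * (1 - (bern Γ).real B))
        ≤ ∑ s ∈ S, (bern Γ).real (symmDiff (shift s '' B) B) := by
  classical
  set F : (Γ → Bool) → ℝ := fun y => B.indicator (fun _ => (1 : ℝ)) y - (bern Γ).real B with hFdef
  have hF : ∀ y y' : Γ → Bool, (∀ t ∈ T0, y t = y' t) → F y = F y' := by
    intro y y' h
    have := hT0 y y' h
    simp only [hFdef, Set.indicator]
    by_cases hy : y ∈ B
    · simp [hy, this.1 hy]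
    · have hy' : y' ∉ B := fun h' => hy (this.2 h')
      simp [hy, hy']
  obtain ⟨a, ha0, haF⟩ := wal_expand T0 F hF
  have hae : a ∅ = 0 := by
    have h1 := int_wal T0.powerset (Finset.empty_mem_powerset _) a
    rw [← h1]
    have h2 : ∀ y, (∑ T ∈ T0.powerset, a T * wal T y) = F y := fun y => (haF y).symm
    simp_rw [h2]
    exact int_indicator B hB
  set Q : Finset (Finset Γ) := T0.powerset ∪ S.biUnion
    (fun s => T0.powerset.image (fun T => T.image (fun t => s * t))) with hQ
  have hsub : T0.powerset ⊆ Q := Finset.subset_union_left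
  have hQ0 : ∀ T, T ∉ Q → a T = 0 := by
    intro T hT
    apply ha0
    intro h
    exact hT (hsub (Finset.mem_powerset.2 h))
  have himg : ∀ (s : Γ) (T : Finset Γ),
      (T.image (fun t => s⁻¹ * t)).image (fun t => s * t) = T := by
    intro s T
    rw [Finset.image_image]
    have : ((fun t => s * t) ∘ fun t => s⁻¹ * t) = (id : Γ → Γ) := by
      funext t; simp
    rw [this, Finset.image_id]
  have himg' : ∀ (s : Γ) (T : Finset Γ),
      (T.image (fun t => s * t)).image (fun t => s⁻¹ * t) = T := by
    intro s T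
    rw [Finset.image_image]
    have : ((fun t => s⁻¹ * t) ∘ fun t => s * t) = (id : Γ → Γ) := by
      funext t; simp
    rw [this, Finset.image_id]
  have hQs : ∀ s ∈ S, ∀ T, T ∉ Q → a (T.image (fun t => s⁻¹ * t)) = 0 := by
    intro s hs T hT
    apply ha0
    intro h
    apply hT
    rw [hQ]
    apply Finset.mem_union_right
    rw [Finset.mem_biUnion]
    refine ⟨s, hs, ?_⟩
    rw [Finset.mem_image]
    exact ⟨T.image (fun t => s⁻¹ * t), Finset.mem_powerset.2 h, himg s T⟩
  have hFQ : ∀ y, F y = ∑ T ∈ Q, a T * wal T y := by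
    intro y
    rw [haF y]
    refine Finset.sum_subset hsub ?_
    intro T _ hT
    rw [ha0 T (fun h => hT (Finset.mem_powerset.2 h)), zero_mul]
  have hFs : ∀ s ∈ S, ∀ y, F (shift s⁻¹ y) = ∑ T ∈ Q, a (T.image (fun t => s⁻¹ * t)) * wal T y := by
    intro s hs y
    rw [haF]
    have h1 : ∀ T ∈ T0.powerset, a T * wal T (shift s⁻¹ y)
        = a ((T.image (fun t => s * t)).image (fun t => s⁻¹ * t))
            * wal (T.image (fun t => s * t)) y := by
      intro T _
      rw [wal_shift, himg', inv_inv]
    rw [Finset.sum_congr rfl h1]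
    have h2 : ∑ T ∈ T0.powerset, a ((T.image (fun t => s * t)).image (fun t => s⁻¹ * t))
            * wal (T.image (fun t => s * t)) y
        = ∑ T ∈ T0.powerset.image (fun T => T.image (fun t => s * t)),
            a (T.image (fun t => s⁻¹ * t)) * wal T y := by
      rw [Finset.sum_image]
      intro T _ T' _ h
      have h' : T.image (fun t => s * t) = T'.image (fun t => s * t) := h
      rw [← himg' s T, h', himg']
    rw [h2]
    refine Finset.sum_subset ?_ ?_
    · intro T hT
      rw [hQ]
      apply Finset.mem_union_right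
      rw [Finset.mem_biUnion]
      exact ⟨s, hs, hT⟩
    · intro T _ hT
      rw [ha0, zero_mul]
      intro h
      apply hT
      rw [Finset.mem_image]
      exact ⟨T.image (fun t => s⁻¹ * t), Finset.mem_powerset.2 h, himg s T⟩
  -- the two L2 identities
  have hL : (bern Γ).real B * (1 - (bern Γ).real B) = ∑ T ∈ Q, a T ^ 2 := by
    rw [← int_sq_indicator B hB, ← parseval Q a]
    refine integral_congr_ae (Filter.Eventually.of_forall (fun y => ?_))
    change (F y) ^ 2 = (∑ T ∈ Q, a T * wal T y) ^ 2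
    rw [hFQ y]
  have hR : ∀ s ∈ S, (bern Γ).real (symmDiff (shift s '' B) B)
      = ∑ T ∈ Q, (a (T.image (fun t => s⁻¹ * t)) - a T) ^ 2 := by
    intro s hs
    have hm : MeasurableSet (shift s '' B) := by
      rw [image_shift]
      exact (shift_mp s⁻¹).measurable hB
    rw [← int_symm _ _ hm hB, ← parseval Q (fun T => a (T.image (fun t => s⁻¹ * t)) - a T)]
    refine integral_congr_ae (Filter.Eventually.of_forall (fun y => ?_))
    change ((shift s '' B).indicator (fun _ => (1 : ℝ)) y - B.indicator (fun _ => (1 : ℝ)) y) ^ 2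
      = (∑ T ∈ Q, (a (T.image (fun t => s⁻¹ * t)) - a T) * wal T y) ^ 2
    have h1 : (∑ T ∈ Q, (a (T.image (fun t => s⁻¹ * t)) - a T) * wal T y)
        = F (shift s⁻¹ y) - F y := by
      rw [hFs s hs y, hFQ y, ← Finset.sum_sub_distrib]
      refine Finset.sum_congr rfl (fun T _ => ?_)
      ring
    rw [h1]
    have h2 : (shift s '' B).indicator (fun _ => (1 : ℝ)) y
        = B.indicator (fun _ => (1 : ℝ)) (shift s⁻¹ y) := by
      rw [image_shift]
      rfl
    rw [h2]
    simp only [hFdef]
    ring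
  rw [hL, Finset.sum_congr rfl hR]
  -- pass to nonempty sets
  have hP := iso_gap_P S c hS (P := NF Γ) (fun p => stab_fin p)
  have key := l2_gap S c hc (P := NF Γ) hP (fun p => a p.1) (Q.subtype (fun T => T.Nonempty))
    (by
      intro p hp
      apply hQ0
      intro h
      exact hp (Finset.mem_subtype.2 h))
    (by
      intro s hs p hp
      change a (s⁻¹ • p).1 = 0
      rw [smul_val]
      apply hQs s hs
      intro h
      exact hp (Finset.mem_subtype.2 h))
  have e1 : ∑ p ∈ Q.subtype (fun T => T.Nonempty), (fun p : NF Γ => a p.1) p ^ 2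
      = ∑ T ∈ Q, a T ^ 2 := by
    rw [Finset.sum_subtype_eq_sum_filter (s := Q) (f := fun T => a T ^ 2)
      (p := fun T => T.Nonempty)]
    refine Finset.sum_subset (Finset.filter_subset _ _) ?_
    intro T hT hT'
    have : T = ∅ := by
      by_contra hne
      exact hT' (Finset.mem_filter.2 ⟨hT, Finset.nonempty_iff_ne_empty.2 hne⟩)
    rw [this, hae]
    norm_num
  have e2 : ∀ s ∈ S, ∑ p ∈ Q.subtype (fun T => T.Nonempty),
      ((fun p : NF Γ => a p.1) (s⁻¹ • p) - (fun p : NF Γ => a p.1) p) ^ 2
      = ∑ T ∈ Q, (a (T.image (fun t => s⁻¹ * t)) - a T) ^ 2 := by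
    intro s _
    have e3 : ∀ p : NF Γ, ((fun p : NF Γ => a p.1) (s⁻¹ • p) - (fun p : NF Γ => a p.1) p) ^ 2
        = (fun T : Finset Γ => (a (T.image (fun t => s⁻¹ * t)) - a T) ^ 2) p.1 := by
      intro p
      rfl
    rw [Finset.sum_congr rfl (fun p _ => e3 p),
      Finset.sum_subtype_eq_sum_filter (s := Q)
        (f := fun T : Finset Γ => (a (T.image (fun t => s⁻¹ * t)) - a T) ^ 2)
        (p := fun T => T.Nonempty)]
    refine Finset.sum_subset (Finset.filter_subset _ _) ?_
    intro T hT hT'
    have : T = ∅ := by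
      by_contra hne
      exact hT' (Finset.mem_filter.2 ⟨hT, Finset.nonempty_iff_ne_empty.2 hne⟩)
    rw [this, Finset.image_empty, hae]
    norm_num
  rw [e1, Finset.sum_congr rfl e2] at key
  exact key

end Cyl

end AC5

/-- TARGET -/
theorem bern_gap (Γ : Type) [Group Γ] [Countable Γ] (h : ¬ Amenable Γ) :
    ∃ (S : Finset Γ) (c : ℝ), 0 < c ∧ ∀ B : Set (Γ → Bool), MeasurableSet B →
      c * ((bern Γ).real B * (1 - (bern Γ).real B))
        ≤ ∑ s ∈ S, (bern Γ).real (symmDiff (shift s '' B) B) := by
  classical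
  obtain ⟨S, c0, hc0, hS⟩ := iso_gap Γ h
  set c : ℝ := c0 ^ 2 / (4 * (S.card + 1)) with hcdef
  have hc : 0 < c := by positivity
  refine ⟨S, c, hc, ?_⟩
  intro B hB
  refine le_of_forall_pos_le_add (fun ε hε => ?_)
  set δ : ℝ := ε / (c + 2 * S.card) with hδdef
  have hden : 0 < c + 2 * (S.card : ℝ) := by positivity
  have hδ : 0 < δ := by positivity
  obtain ⟨t, htC, htB⟩ := exists_measure_symmDiff_lt_of_generateFrom_isSetRing
    (μ := bern Γ) (C := measurableCylinders (fun _ : Γ => Bool))
    isSetRing_measurableCylinders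
    ⟨{Set.univ}, Set.countable_singleton _, by
      rw [Set.singleton_subset_iff]
      exact isSetAlgebra_measurableCylinders.univ_mem, by simp⟩
    generateFrom_measurableCylinders.symm hB (ε := ENNReal.ofReal δ)
    (by simpa using hδ)
  have htm : MeasurableSet t := MeasurableSet.of_mem_measurableCylinders htC
  obtain ⟨T0, U, hU, htU⟩ := (mem_measurableCylinders t).1 htC
  have hcyl := AC5.cyl_gap S c0 hc0 hS t htm T0 (by
    intro y y' hyy
    have : T0.restrict y = T0.restrict y' := by
      funext i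
      exact hyy i.1 i.2
    rw [htU, mem_cylinder, mem_cylinder, this])
  have hreal : (bern Γ).real (symmDiff t B) < δ := by
    rw [Measure.real]
    have := (ENNReal.toReal_lt_toReal (measure_ne_top _ _) ENNReal.ofReal_ne_top).2 htB
    rwa [ENNReal.toReal_ofReal hδ.le] at this
  -- comparisons
  have hs : ∀ s ∈ S, (bern Γ).real (symmDiff (shift s '' t) t)
      ≤ (bern Γ).real (symmDiff (shift s '' B) B) + 2 * δ := by
    intro s _
    have hsub : symmDiff (shift s '' t) t
        ⊆ symmDiff (shift s '' B) B ∪ (shift s⁻¹ ⁻¹' (symmDiff t B) ∪ symmDiff t B) := by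
      rw [AC5.image_shift, AC5.image_shift]
      intro y hy
      simp only [Set.mem_symmDiff, Set.mem_union, Set.mem_preimage] at hy ⊢
      tauto
    have h1 : (bern Γ).real (shift s⁻¹ ⁻¹' (symmDiff t B)) = (bern Γ).real (symmDiff t B) := by
      rw [Measure.real, Measure.real,
        (shift_mp s⁻¹).measure_preimage (htm.symmDiff hB).nullMeasurableSet]
    calc (bern Γ).real (symmDiff (shift s '' t) t)
        ≤ (bern Γ).real (symmDiff (shift s '' B) B ∪ (shift s⁻¹ ⁻¹' (symmDiff t B) ∪ symmDiff t B)) :=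
          measureReal_mono hsub
      _ ≤ (bern Γ).real (symmDiff (shift s '' B) B)
          + (bern Γ).real (shift s⁻¹ ⁻¹' (symmDiff t B) ∪ symmDiff t B) := measureReal_union_le _ _
      _ ≤ (bern Γ).real (symmDiff (shift s '' B) B)
          + ((bern Γ).real (shift s⁻¹ ⁻¹' (symmDiff t B)) + (bern Γ).real (symmDiff t B)) := by
          gcongr
          exact measureReal_union_le _ _
      _ ≤ (bern Γ).real (symmDiff (shift s '' B) B) + 2 * δ := by
          rw [h1]
          linarith
  have hsum : ∑ s ∈ S, (bern Γ).real (symmDiff (shift s '' t) t)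
      ≤ ∑ s ∈ S, (bern Γ).real (symmDiff (shift s '' B) B) + S.card * (2 * δ) := by
    calc _ ≤ ∑ s ∈ S, ((bern Γ).real (symmDiff (shift s '' B) B) + 2 * δ) := Finset.sum_le_sum hs
      _ = _ := by
        rw [Finset.sum_add_distrib, Finset.sum_const, nsmul_eq_mul]
  have hb1 : (bern Γ).real B ≤ (bern Γ).real t + δ := by
    have hsub : B ⊆ t ∪ symmDiff t B := by
      intro y hy
      simp only [Set.mem_symmDiff, Set.mem_union]
      tauto
    calc (bern Γ).real B ≤ (bern Γ).real (t ∪ symmDiff t B) := measureReal_mono hsub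
      _ ≤ (bern Γ).real t + (bern Γ).real (symmDiff t B) := measureReal_union_le _ _
      _ ≤ _ := by linarith
  have hb2 : (bern Γ).real t ≤ (bern Γ).real B + δ := by
    have hsub : t ⊆ B ∪ symmDiff t B := by
      intro y hy
      simp only [Set.mem_symmDiff, Set.mem_union]
      tauto
    calc (bern Γ).real t ≤ (bern Γ).real (B ∪ symmDiff t B) := measureReal_mono hsub
      _ ≤ (bern Γ).real B + (bern Γ).real (symmDiff t B) := measureReal_union_le _ _
      _ ≤ _ := by linarith
  have hB0 : 0 ≤ (bern Γ).real B := measureReal_nonneg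
  have ht0 : 0 ≤ (bern Γ).real t := measureReal_nonneg
  have hB1 : (bern Γ).real B ≤ 1 := measureReal_le_one
  have ht1 : (bern Γ).real t ≤ 1 := measureReal_le_one
  have hprod : (bern Γ).real B * (1 - (bern Γ).real B)
      ≤ (bern Γ).real t * (1 - (bern Γ).real t) + δ := by
    set x := (bern Γ).real B
    set y := (bern Γ).real t
    have : x * (1 - x) - y * (1 - y) = (x - y) * (1 - x - y) := by ring
    have h2 : (x - y) * (1 - x - y) ≤ |x - y| * |1 - x - y| := by
      rw [← abs_mul]
      exact le_abs_self _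
    have h3 : |x - y| ≤ δ := abs_le.2 ⟨by linarith, by linarith⟩
    have h4 : |1 - x - y| ≤ 1 := abs_le.2 ⟨by linarith, by linarith⟩
    have h5 : |x - y| * |1 - x - y| ≤ δ * 1 :=
      mul_le_mul h3 h4 (abs_nonneg _) hδ.le
    linarith
  have hfin : c * ((bern Γ).real B * (1 - (bern Γ).real B))
      ≤ c * ((bern Γ).real t * (1 - (bern Γ).real t)) + c * δ := by
    rw [← mul_add]
    exact mul_le_mul_of_nonneg_left hprod hc.le
  have hε' : (c + 2 * S.card) * δ = ε := by
    rw [hδdef]
    field_simp
  nlinarith [hfin, hcyl, hsum]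

end Helper418AC
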